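import Pool.Agent.Q171.QA.Cx

/-!
# Rational acyclicity
-/

open Finset

namespace Q171.QA

theorem subsing_of_le {X : SComplex} {R : Type} [CommRing R] {n : ℕ}
    (h : X.cycles R n ≤ X.boundaries R n) : Subsingleton (X.redH R n) := by
  constructor
  have key : ∀ x : X.redH R n, x = 0 := by
    intro x
    induction x using QuotientAddGroup.induction_on with
    | H z =>
      rw [QuotientAddGroup.eq_zero_iff, AddSubgroup.mem_addSubgroupOf]
      exact h z.2
  intro x y
  rw [key x, key y]

variable {d N : ℕ} {B F : Finset (Finset ℕ)}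

/-- degree `d-1` over `ℚ` -/
theorem mid_exact {G : Type} [AddCommGroup G] [Finite G] {val : Finset ℕ → G}
    (h : Ok d N B F) (hp : Pres B F G val) :
    (cx h).cycles ℚ d ≤ (cx h).boundaries ℚ d := by
  intro z hz
  obtain ⟨ψ, hψ⟩ := hp.univ _ (cc h ℚ) (fun t ht => cc_not_mem h ℚ ht)
    (fun s hs => cc_rel h ℚ hs)
  have hψ0 : ∀ g, ψ g = 0 := by
    intro g
    have h1 : (Nat.card G) • g = 0 := card_nsmul_eq_zero'
    have h2 : (Nat.card G) • ψ g = 0 := by rw [← map_nsmul, h1, map_zero]
    have h3 : ((Nat.card G : ℕ) : ℚ) • ψ g = 0 := by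
      rw [Nat.cast_smul_eq_nsmul]; exact h2
    rcases smul_eq_zero.mp h3 with h4 | h4
    · exfalso
      have : Nat.card G = 0 := by exact_mod_cast h4
      exact Nat.card_pos.ne' this
    · exact h4
  have hc : cc h ℚ = 0 := by
    funext t
    rw [← hψ t, hψ0]; rfl
  have h1 := mk_cycle h ℚ hz
  rw [hc] at h1
  have h2 : Finsupp.linearCombination ℚ
      (0 : Finset ℕ → (Finset ℕ →₀ ℚ) ⧸ ((cx h).boundaries ℚ d)) z = 0 := by
    rw [Finsupp.linearCombination_apply, Finsupp.sum]
    apply Finset.sum_eq_zero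
    intro t _
    rw [Pi.zero_apply, smul_zero]
  rw [h2, Submodule.Quotient.mk_eq_zero] at h1
  exact h1

/-- the `d`-faces -/
def topF (h : Ok d N B F) : Finset (Finset ℕ) := (cx h).faces.filter (fun s => s.card = d + 1)

/-- the `(d-1)`-simplices avoiding the apex -/
def base (d N : ℕ) : Finset (Finset ℕ) :=
  (Finset.range N).powerset.filter (fun s => s.card = d ∧ 0 ∉ s)

theorem mem_base {s : Finset ℕ} : s ∈ base d N ↔ s ⊆ Finset.range N ∧ s.card = d ∧ 0 ∉ s := by
  unfold base
  rw [Finset.mem_filter, Finset.mem_powerset]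

theorem card_topF_le (h : Ok d N B F) (hcard : F.card ≤ B.card) :
    (topF h).card ≤ (base d N).card := by
  have h1 : topF h ⊆ F ∪ ((base d N) \ B).image (fun s => insert 0 s) := by
    intro s hs
    unfold topF at hs
    rw [Finset.mem_filter] at hs
    obtain ⟨hs1, hs2⟩ := hs
    have hs' : s ∈ cxFaces d N B F := hs1
    rw [mem_cxFaces] at hs'
    rcases hs' with h1 | h1 | h1
    · omega
    · exact Finset.mem_union_left _ h1
    · apply Finset.mem_union_right
      rw [Finset.mem_image]
      refine ⟨s.erase 0, ?_, Finset.insert_erase h1.2.2.1⟩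
      rw [Finset.mem_sdiff, mem_base]
      refine ⟨⟨(Finset.erase_subset _ _).trans h1.1, ?_, Finset.notMem_erase 0 s⟩, h1.2.2.2⟩
      rw [Finset.card_erase_of_mem h1.2.2.1, h1.2.1]
      rfl
  have hB : B ⊆ base d N := fun s hs => mem_base.mpr (h.hB s hs)
  have h2 := Finset.card_le_card h1
  have h3 := Finset.card_union_le F (((base d N) \ B).image (fun s => insert 0 s))
  have h4 : (((base d N) \ B).image (fun s => insert 0 s)).card ≤ ((base d N) \ B).card :=
    Finset.card_image_le
  have h5 := Finset.card_sdiff_add_card_eq_card hB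
  omega

theorem finrank_supported (S : Finset (Finset ℕ)) :
    Module.finrank ℚ (Finsupp.supported ℚ ℚ (S : Set (Finset ℕ))) = S.card := by
  rw [(Finsupp.supportedEquivFinsupp (M := ℚ) (R := ℚ) (S : Set (Finset ℕ))).finrank_eq,
    Module.finrank_finsupp_self]
  simp

theorem chains_top (h : Ok d N B F) :
    (cx h).chains ℚ (d + 1) = Finsupp.supported ℚ ℚ ((topF h : Finset (Finset ℕ)) :
      Set (Finset ℕ)) := by
  unfold SComplex.chains topF
  congr 1
  ext s
  simp

/-- the boundary of top chains, restricted to the base -/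
noncomputable def topMap (h : Ok d N B F) :
    (Finsupp.supported ℚ ℚ ((topF h : Finset (Finset ℕ)) : Set (Finset ℕ))) →ₗ[ℚ]
      (base d N → ℚ) where
  toFun f := fun t => (bd ℚ (f : Finset ℕ →₀ ℚ)) t
  map_add' f g := by funext t; simp
  map_smul' r f := by funext t; simp

theorem topMap_surj (h : Ok d N B F)
    (hmid : (cx h).cycles ℚ d ≤ (cx h).boundaries ℚ d) : Function.Surjective (topMap h) := by
  intro y
  let y' : Finset ℕ →₀ ℚ := ∑ t : base d N, Finsupp.single (t : Finset ℕ) (y t)
  have hy' : y' ∈ Finsupp.supported ℚ ℚ (Sk N d) := by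
    apply Submodule.sum_mem
    intro t _
    apply Finsupp.single_mem_supported
    have := mem_base.mp t.2
    exact ⟨this.1, this.2.1⟩
  have hy1 : ∀ t : base d N, y' (t : Finset ℕ) = y t := by
    intro t
    show (∑ t : base d N, Finsupp.single (t : Finset ℕ) (y t)) (t : Finset ℕ) = y t
    rw [Finsupp.finsetSum_apply, Finset.sum_eq_single t]
    · simp
    · intro s _ hs
      rw [Finsupp.single_apply, if_neg]
      intro h'
      exact hs (Subtype.ext h')
    · intro h'; exact absurd (Finset.mem_univ _) h'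
  have hz : bd ℚ (cone ℚ y') ∈ (cx h).cycles ℚ d := by
    refine mem_cycles.mpr ⟨?_, bd_bd _ _⟩
    rw [chains_low h ℚ le_rfl]
    exact bd_mem ℚ (cone_mem ℚ h.hN hy')
  obtain ⟨f, hf, hfe⟩ := hmid hz
  rw [SetLike.mem_coe, chains_top h] at hf
  refine ⟨⟨f, hf⟩, ?_⟩
  funext t
  show (bd ℚ f) (t : Finset ℕ) = y t
  rw [hfe]
  have h1 := bd_cone ℚ y'
  have h2 : (bd ℚ (cone ℚ y')) (t : Finset ℕ) + (cone ℚ (bd ℚ y')) (t : Finset ℕ) =
      y' (t : Finset ℕ) := by
    rw [← Finsupp.add_apply, h1]
  rw [cone_apply_of_not_mem ℚ _ (mem_base.mp t.2).2.2, add_zero, hy1] at h2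
  exact h2

theorem topMap_inj (h : Ok d N B F) (hcard : F.card ≤ B.card)
    (hmid : (cx h).cycles ℚ d ≤ (cx h).boundaries ℚ d) :
    LinearMap.ker (topMap h) = ⊥ := by
  have h1 : Module.finrank ℚ (LinearMap.range (topMap h)) = (base d N).card := by
    rw [LinearMap.range_eq_top.mpr (topMap_surj h hmid), finrank_top, Module.finrank_pi]
    simp
  have : FiniteDimensional ℚ (Finsupp.supported ℚ ℚ ((topF h : Finset (Finset ℕ)) :
      Set (Finset ℕ))) :=
    Module.Finite.equiv (Finsupp.supportedEquivFinsupp (M := ℚ) (R := ℚ)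
      ((topF h : Finset (Finset ℕ)) : Set (Finset ℕ))).symm
  have h2 := LinearMap.finrank_range_add_finrank_ker (topMap h)
  rw [h1, finrank_supported] at h2
  have h3 := card_topF_le h hcard
  have h4 : Module.finrank ℚ (LinearMap.ker (topMap h)) = 0 := by omega
  exact Submodule.finrank_eq_zero.mp h4

theorem qacyclic {G : Type} [AddCommGroup G] [Finite G] {val : Finset ℕ → G}
    (h : Ok d N B F) (hp : Pres B F G val) (hcard : F.card ≤ B.card) : (cx h).QAcyclic := by
  intro n
  apply subsing_of_le
  have hmid := mid_exact h hp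
  rcases lt_trichotomy n d with hn | hn | hn
  · exact low_exact h ℚ hn
  · rw [hn]; exact hmid
  · rcases Nat.lt_or_ge n (d + 2) with hn2 | hn2
    · have : n = d + 1 := by omega
      rw [this]
      intro z hz
      obtain ⟨h1, h2⟩ := mem_cycles.mp hz
      rw [chains_top h] at h1
      have h3 : (⟨z, h1⟩ : Finsupp.supported ℚ ℚ ((topF h : Finset (Finset ℕ)) :
          Set (Finset ℕ))) ∈ LinearMap.ker (topMap h) := by
        rw [LinearMap.mem_ker]
        funext t
        show (bd ℚ z) (t : Finset ℕ) = 0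
        rw [h2]; rfl
      rw [topMap_inj h hcard hmid, Submodule.mem_bot] at h3
      have h4 : z = 0 := congrArg Subtype.val h3
      rw [h4]; exact Submodule.zero_mem _
    · intro z hz
      obtain ⟨h1, _⟩ := mem_cycles.mp hz
      have h3 : z = 0 := by
        have h4 : {s | s ∈ (cx h).faces ∧ s.card = n} = (∅ : Set (Finset ℕ)) := by
          ext s
          simp only [Set.mem_ofPred_eq, Set.mem_empty_iff_false, iff_false, not_and]
          intro h5 h6
          have := (cx_le h h5).2
          omega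
        unfold SComplex.chains at h1
        rw [h4, Finsupp.supported_empty, Submodule.mem_bot] at h1
        exact h1
      rw [h3]; exact Submodule.zero_mem _

theorem vertices_card (h : Ok d N B F) : (cx h).vertices.card ≤ N := by
  have h1 : (cx h).vertices ⊆ Finset.range N := by
    intro v hv
    unfold SComplex.vertices at hv
    rw [Finset.mem_biUnion] at hv
    obtain ⟨s, hs, hv⟩ := hv
    exact (cx_le h hs).1 hv
  have := Finset.card_le_card h1
  rwa [Finset.card_range] at this

theorem hasDim (h : Ok d N B F) (hF : F.Nonempty) : (cx h).HasDim d := by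
  refine ⟨?_, fun s hs => (cx_le h hs).2⟩
  obtain ⟨s, hs⟩ := hF
  refine ⟨s, ?_, (h.hF s hs).2.1⟩
  show s ∈ cxFaces d N B F
  rw [mem_cxFaces]
  right; left; exact hs

end Q171.QA
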