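import Pool.Agent.Q171.QA.Mk

/-!
# The cells and the simplices of the machine
-/

open Finset

namespace Q171.QA

/-- moduli for the layout -/
structure Layout (d T : ℕ) where
  Q : ℕ → ℕ
  K : ℕ
  hd : 2 ≤ d
  hK : ∀ i ≤ d, 3 * Q i ≤ K
  hQ : ∀ i ≤ d, 0 < Q i
  even : ∀ i ≤ d, 2 ∣ Q i
  crt : ∀ e ≤ d, ∀ t ≤ T, ∀ t' ≤ T, (∀ i ≤ d, i ≠ e → t % Q i = t' % Q i) → t = t'

/-- the letter of the kind `k` in class `i` -/
def pat (k i : ℕ) : ℕ :=
  if k = 3 then (if i = 2 then 1 else 0)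
  else if k = 4 then (if i = 1 ∨ i = 2 then 1 else 0)
  else if k = 5 then (if i = 1 then 1 else 0)
  else if k = 6 then (if i = 1 then 2 else if i = 2 then 1 else 0)
  else 0

theorem pat_lt (k i : ℕ) : pat k i < 3 := by
  unfold pat
  split_ifs <;> omega

/-- the class missing from the kind `k` -/
def ex (k : ℕ) : ℕ := if k = 1 then 1 else if k = 2 then 2 else 0

theorem ex_le (k : ℕ) : ex k ≤ 2 := by unfold ex; split_ifs <;> omega

variable {d T : ℕ}

namespace Layout

variable (L : Layout d T)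

/-- the label of the cell `(k, j, t)` in class `i` -/
def lab (k j t i : ℕ) : ℕ := 3 * ((if i ≤ j then t else t - 1) % L.Q i) + pat k i

/-- the cell `(k, j, t)` -/
def cell (k j t : ℕ) : Finset ℕ :=
  mks L.K ((Finset.range (d + 1)).erase (ex k)) (L.lab k j t)

variable {L}

theorem lab_lt {k j t i : ℕ} (hi : i ≤ d) : L.lab k j t i < L.K := by
  unfold lab
  have h1 := pat_lt k i
  have h2 := Nat.mod_lt (if i ≤ j then t else t - 1) (L.hQ i hi)
  have h3 := L.hK i hi
  omega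

theorem lab_lt' {k j t : ℕ} {S : Finset ℕ} (hS : S ⊆ Finset.range (d + 1)) :
    ∀ i ∈ S, L.lab k j t i < L.K := by
  intro i hi
  have := Finset.mem_range.mp (hS hi)
  exact lab_lt (by omega)

theorem lab_eq {k j t k' j' t' i : ℕ} (h : L.lab k j t i = L.lab k' j' t' i) :
    pat k i = pat k' i ∧
      (if i ≤ j then t else t - 1) % L.Q i = (if i ≤ j' then t' else t' - 1) % L.Q i := by
  unfold lab at h
  have h1 := pat_lt k i
  have h2 := pat_lt k' i
  omega

/-- validity of a code -/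
structure Valid (d T k j t : ℕ) : Prop where
  k7 : k < 7
  j1 : 1 ≤ j
  jd : j ≤ d
  tT : t ≤ T
  kj : k < 5 → j = d
  jt : j < d → 1 ≤ t

theorem erase_inj {e e' : ℕ} (he : e ≤ d) (he' : e' ≤ d)
    (h : (Finset.range (d + 1)).erase e = (Finset.range (d + 1)).erase e') : e = e' := by
  by_contra hne
  have h1 : e ∈ (Finset.range (d + 1)).erase e' :=
    Finset.mem_erase.mpr ⟨hne, Finset.mem_range.mpr (by omega)⟩
  rw [← h] at h1
  exact Finset.notMem_erase _ _ h1

theorem kind_eq {k k' : ℕ} (hd : 2 ≤ d) (hk : k < 7) (hk' : k' < 7) (he : ex k = ex k')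
    (h : ∀ i ≤ d, i ≠ ex k → pat k i = pat k' i) : k = k' := by
  have h1 := h 1 (by omega)
  have h2 := h 2 (by omega)
  unfold ex at he h1 h2
  unfold pat at h1 h2
  interval_cases k <;> interval_cases k' <;> simp_all

theorem mod_two {a b q : ℕ} (hq : 2 ∣ q) (h : a % q = b % q) : a % 2 = b % 2 := by
  have h1 := Nat.mod_mod_of_dvd a hq
  have h2 := Nat.mod_mod_of_dvd b hq
  rw [← h1, ← h2, h]

theorem succ_mod {a b q : ℕ} (h : (a - 1) % q = (b - 1) % q) (ha : 1 ≤ a) (hb : 1 ≤ b) :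
    a % q = b % q := by
  have h1 : (a - 1 + 1) % q = (b - 1 + 1) % q := Nat.ModEq.add_right 1 h
  rwa [Nat.sub_add_cancel ha, Nat.sub_add_cancel hb] at h1

theorem j_le {j t j' t' : ℕ} (hd : 1 ≤ d) (hj1 : 1 ≤ j) (hj'd : j' ≤ d) (hjt : j < d → 1 ≤ t)
    (hj'1 : 1 ≤ j')
    (h : ∀ i ≤ d, i ≠ 0 →
      (if i ≤ j then t else t - 1) % L.Q i = (if i ≤ j' then t' else t' - 1) % L.Q i) :
    j' ≤ j := by
  by_contra hlt
  have h1 := h 1 hd (by omega)
  rw [if_pos hj1, if_pos hj'1] at h1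
  have h2 := h j' hj'd (by omega)
  rw [if_neg (by omega), if_pos le_rfl] at h2
  have h3 := mod_two (L.even 1 hd) h1
  have h4 := mod_two (L.even j' hj'd) h2
  have h5 := hjt (by omega)
  omega

theorem cell_inj {k j t k' j' t' : ℕ} (hv : Valid d T k j t) (hv' : Valid d T k' j' t')
    (h : L.cell k j t = L.cell k' j' t') : k = k' ∧ j = j' ∧ t = t' := by
  have hd := L.hd
  unfold cell at h
  obtain ⟨h1, h2⟩ := mk_inj (lab_lt' (Finset.erase_subset _ _))
    (lab_lt' (Finset.erase_subset _ _)) h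
  have he : ex k = ex k' := erase_inj (by have := ex_le k; omega) (by have := ex_le k'; omega) h1
  have h3 : ∀ i ≤ d, i ≠ ex k → pat k i = pat k' i ∧
      (if i ≤ j then t else t - 1) % L.Q i = (if i ≤ j' then t' else t' - 1) % L.Q i := by
    intro i hi hne
    exact lab_eq (h2 i (Finset.mem_erase.mpr ⟨hne, Finset.mem_range.mpr (by omega)⟩))
  have hk : k = k' := kind_eq hd hv.k7 hv'.k7 he (fun i hi hne => (h3 i hi hne).1)
  subst hk
  have hj : j = j' := by
    by_cases hk5 : k < 5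
    · rw [hv.kj hk5, hv'.kj hk5]
    · have hex : ex k = 0 := by
        unfold ex
        rw [if_neg (by omega), if_neg (by omega)]
      rw [hex] at h3
      apply le_antisymm
      · exact j_le (by omega) hv'.j1 hv.jd hv'.jt hv.j1
          (fun i hi hne => ((h3 i hi hne).2).symm)
      · exact j_le (by omega) hv.j1 hv'.jd hv.jt hv'.j1
          (fun i hi hne => (h3 i hi hne).2)
  subst hj
  refine ⟨rfl, rfl, ?_⟩
  apply L.crt (ex k) (by have := ex_le k; omega) t hv.tT t' hv'.tT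
  intro i hi hne
  have h4 := (h3 i hi hne).2
  by_cases hij : i ≤ j
  · rwa [if_pos hij, if_pos hij] at h4
  · rw [if_neg hij, if_neg hij] at h4
    exact succ_mod h4 (hv.jt (by omega)) (hv'.jt (by omega))

end Layout

/-- codes of the cells -/
def BI (d T : ℕ) (kill : ℕ → Bool) : Finset (ℕ × ℕ × ℕ) :=
  ((Finset.range 7) ×ˢ ((Finset.Icc 1 d) ×ˢ (Finset.Icc 1 T))).filter
    (fun p => (p.1 < 5 → p.2.1 = d) ∧ (p.1 = 0 → kill p.2.2 = false))

/-- codes of the simplices -/
def FI (d T : ℕ) (kill : ℕ → Bool) : Finset (ℕ × ℕ × ℕ) :=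
  ((Finset.range 7) ×ˢ ((Finset.Icc 1 d) ×ˢ (Finset.Icc 1 T))).filter
    (fun p => (p.1 < 5 → p.2.1 = d) ∧ (p.1 = 0 → kill (p.2.2 - 1) = false))

theorem mem_BI {kill : ℕ → Bool} {k j t : ℕ} : (k, j, t) ∈ BI d T kill ↔
    k < 7 ∧ 1 ≤ j ∧ j ≤ d ∧ 1 ≤ t ∧ t ≤ T ∧ (k < 5 → j = d) ∧ (k = 0 → kill t = false) := by
  unfold BI
  simp only [Finset.mem_filter, Finset.mem_product, Finset.mem_range, Finset.mem_Icc]
  tauto

theorem mem_FI {kill : ℕ → Bool} {k j t : ℕ} : (k, j, t) ∈ FI d T kill ↔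
    k < 7 ∧ 1 ≤ j ∧ j ≤ d ∧ 1 ≤ t ∧ t ≤ T ∧ (k < 5 → j = d) ∧
      (k = 0 → kill (t - 1) = false) := by
  unfold FI
  simp only [Finset.mem_filter, Finset.mem_product, Finset.mem_range, Finset.mem_Icc]
  tauto

theorem valid_of_mem {kill : ℕ → Bool} {k j t : ℕ} (h : (k, j, t) ∈ BI d T kill) :
    Layout.Valid d T k j t := by
  rw [mem_BI] at h
  exact ⟨h.1, h.2.1, h.2.2.1, h.2.2.2.2.1, h.2.2.2.2.2.1, fun _ => h.2.2.2.1⟩

theorem card_FI_le {kill : ℕ → Bool} (hd : 1 ≤ d) (h0 : kill 0 = true) :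
    (FI d T kill).card ≤ (BI d T kill).card := by
  apply Finset.card_le_card_of_injOn
    (fun p => if p.1 = 0 then (0, p.2.1, p.2.2 - 1) else p)
  · rintro ⟨k, j, t⟩ hp
    have hp' := mem_FI.mp (Finset.mem_coe.mp hp)
    simp only
    split_ifs with hk
    · rw [Finset.mem_coe, mem_BI]
      have h1 := hp'.2.2.2.2.2.2 hk
      have h2 : t ≠ 1 := by
        rintro rfl
        rw [h0] at h1
        exact absurd h1 (by simp)
      exact ⟨by omega, hp'.2.1, hp'.2.2.1, by omega, by omega,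
        fun _ => hp'.2.2.2.2.2.1 (by omega), fun _ => h1⟩
    · rw [Finset.mem_coe, mem_BI]
      exact ⟨hp'.1, hp'.2.1, hp'.2.2.1, hp'.2.2.2.1, hp'.2.2.2.2.1, hp'.2.2.2.2.2.1,
        fun h => absurd h hk⟩
  · rintro ⟨k, j, t⟩ hp ⟨k', j', t'⟩ hp' heq
    have h1 := mem_FI.mp (Finset.mem_coe.mp hp)
    have h2 := mem_FI.mp (Finset.mem_coe.mp hp')
    simp only at heq
    split_ifs at heq with ha hb hb
    · simp only [Prod.mk.injEq] at heq ⊢
      omega
    · simp only [Prod.mk.injEq] at heq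
      omega
    · simp only [Prod.mk.injEq] at heq
      omega
    · exact heq

namespace Layout

/-- the cells -/
def B (L : Layout d T) (kill : ℕ → Bool) : Finset (Finset ℕ) :=
  (BI d T kill).image (fun p => L.cell p.1 p.2.1 p.2.2)

/-- the simplices -/
def sim (L : Layout d T) (dbl : ℕ → Bool) (k j t : ℕ) : Finset ℕ :=
  if k = 0 then L.cell 6 0 t ∪ L.cell 6 1 t
  else if k = 1 then mks L.K (Finset.range (d + 1)) (L.lab 0 d t)
  else if k = 2 then mks L.K (Finset.range (d + 1)) (L.lab 5 d t)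
  else if k = 3 then mks L.K (Finset.range (d + 1)) (L.lab 3 d t)
  else if k = 4 then L.cell 5 d t ∪ L.cell 4 d t
  else if k = 5 then
    (if j = 1 then L.cell 0 0 t ∪ L.cell 5 1 t else L.cell 5 (j - 1) t ∪ L.cell 5 j t)
  else
    (if j = 1 then (if dbl t then L.cell 3 d t ∪ L.cell 4 d t else L.cell 3 d t ∪ L.cell 6 d t)
      else L.cell 6 (j - 1) t ∪ L.cell 6 j t)

/-- the `d`-faces -/
def F (L : Layout d T) (dbl kill : ℕ → Bool) : Finset (Finset ℕ) :=
  (FI d T kill).image (fun p => L.sim dbl p.1 p.2.1 p.2.2)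

theorem card_F_le (L : Layout d T) (dbl : ℕ → Bool) {kill : ℕ → Bool} (h0 : kill 0 = true) :
    (L.F dbl kill).card ≤ (L.B kill).card := by
  have h1 : (L.B kill).card = (BI d T kill).card := by
    apply Finset.card_image_of_injOn
    rintro ⟨k, j, t⟩ hp ⟨k', j', t'⟩ hp' heq
    obtain ⟨h1, h2, h3⟩ := cell_inj (valid_of_mem (Finset.mem_coe.mp hp))
      (valid_of_mem (Finset.mem_coe.mp hp')) heq
    rw [h1, h2, h3]
  rw [h1]
  exact Finset.card_image_le.trans (card_FI_le (by have := L.hd; omega) h0)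

/-- cells are adjacent, differing exactly in the class `i` -/
def CAdj (L : Layout d T) (k j t k' j' t' i : ℕ) : Prop :=
  ex k = 0 ∧ ex k' = 0 ∧
    Adj L.K ((Finset.range (d + 1)).erase 0) (L.lab k j t) (L.lab k' j' t') i

theorem cadj_of {L : Layout d T} {k j t k' j' t' i : ℕ} (h1 : ex k = 0) (h2 : ex k' = 0)
    (hi : 1 ≤ i) (hid : i ≤ d) (hne : L.lab k j t i ≠ L.lab k' j' t' i)
    (heq : ∀ i', 1 ≤ i' → i' ≤ d → i' ≠ i → L.lab k j t i' = L.lab k' j' t' i') :
    L.CAdj k j t k' j' t' i := by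
  refine ⟨h1, h2, lab_lt' (Finset.erase_subset _ _), lab_lt' (Finset.erase_subset _ _), ?_, hne,
    ?_⟩
  · rw [Finset.mem_erase, Finset.mem_range]; omega
  · intro i' hi' hne'
    rw [Finset.mem_erase, Finset.mem_range] at hi'
    exact heq i' (by omega) (by omega) hne'

/-- consecutive times differ in every class -/
theorem mod_ne (L : Layout d T) {i t : ℕ} (hi : i ≤ d) (ht : 1 ≤ t) :
    (t - 1) % L.Q i ≠ t % L.Q i := by
  intro h
  have := mod_two (L.even i hi) h
  omega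

/-- step in a chain -/
theorem cadj_step (L : Layout d T) {k j t : ℕ} (hk : ex k = 0) (hj : 1 ≤ j) (hjd : j ≤ d)
    (ht : 1 ≤ t) : L.CAdj k (j - 1) t k j t j := by
  apply cadj_of hk hk hj hjd
  · unfold lab
    rw [if_neg (by omega), if_pos le_rfl]
    have := L.mod_ne hjd ht
    omega
  · intro i' h1 h2 h3
    unfold lab
    congr 3
    by_cases h4 : i' ≤ j
    · rw [if_pos h4, if_pos (by omega)]
    · rw [if_neg h4, if_neg (by omega)]

theorem cadj_first (L : Layout d T) {t : ℕ} : L.CAdj 0 0 t 5 1 t 1 := by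
  have hd := L.hd
  apply cadj_of rfl rfl le_rfl (by omega)
  · unfold lab
    have h1 : pat 0 1 = 0 := rfl
    have h2 : pat 5 1 = 1 := rfl
    rw [h1, h2]
    omega
  · intro i' h1 h2 h3
    unfold lab
    have h4 : pat 0 i' = 0 := rfl
    have h5 : pat 5 i' = 0 := by unfold pat; simp [h3]
    rw [if_neg (by omega), if_neg (by omega), h4, h5]

theorem cadj_54 (L : Layout d T) {t : ℕ} : L.CAdj 5 d t 4 d t 2 := by
  have hd := L.hd
  apply cadj_of rfl rfl (by omega) (by omega)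
  · unfold lab
    have h1 : pat 5 2 = 0 := rfl
    have h2 : pat 4 2 = 1 := rfl
    rw [h1, h2]
    omega
  · intro i' h1 h2 h3
    unfold lab
    have h4 : pat 5 i' = pat 4 i' := by unfold pat; simp [h3]
    rw [h4]

theorem cadj_34 (L : Layout d T) {t : ℕ} : L.CAdj 3 d t 4 d t 1 := by
  have hd := L.hd
  apply cadj_of rfl rfl (by omega) (by omega)
  · unfold lab
    have h1 : pat 3 1 = 0 := rfl
    have h2 : pat 4 1 = 1 := rfl
    rw [h1, h2]
    omega
  · intro i' h1 h2 h3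
    unfold lab
    have h4 : pat 3 i' = pat 4 i' := by unfold pat; simp [h3]
    rw [h4]

theorem cadj_36 (L : Layout d T) {t : ℕ} : L.CAdj 3 d t 6 d t 1 := by
  have hd := L.hd
  apply cadj_of rfl rfl (by omega) (by omega)
  · unfold lab
    have h1 : pat 3 1 = 0 := rfl
    have h2 : pat 6 1 = 2 := rfl
    rw [h1, h2]
    omega
  · intro i' h1 h2 h3
    unfold lab
    have h4 : pat 3 i' = pat 6 i' := by unfold pat; simp [h3]
    rw [h4]

end Layout

end Q171.QA
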