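import Pool.Agent.Q171.QA.Defs

/-!
# Complexes with full `(d-1)`-skeleton, some `d`-faces, and partial cone
-/

open Finset

namespace Q171.QA

theorem sgn_zero (s : Finset ℕ) : sgn 0 s = 1 := by
  unfold sgn
  have : s.filter (· < 0) = ∅ := by
    apply Finset.filter_eq_empty_iff.mpr
    intro x _
    omega
  rw [this]; rfl

/-- removing a smaller vertex changes the sign -/
theorem sgn_erase_of_lt {v w : ℕ} {s : Finset ℕ} (hv : v ∈ s) (h : v < w) :
    sgn w s = - sgn w (s.erase v) := by
  unfold sgn
  have h1 : (s.erase v).filter (· < w) = (s.filter (· < w)).erase v := by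
    ext x
    simp only [Finset.mem_filter, Finset.mem_erase]
    tauto
  have h2 : v ∈ s.filter (· < w) := Finset.mem_filter.mpr ⟨hv, h⟩
  have h3 := Finset.card_erase_add_one h2
  rw [h1, ← h3, pow_succ]
  ring

/-- removing a larger vertex does not change the sign -/
theorem sgn_erase_of_gt {v w : ℕ} {s : Finset ℕ} (h : v < w) :
    sgn v (s.erase w) = sgn v s := by
  unfold sgn
  have h1 : (s.erase w).filter (· < v) = s.filter (· < v) := by
    ext x
    simp only [Finset.mem_filter, Finset.mem_erase]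
    constructor
    · rintro ⟨⟨_, h1⟩, h2⟩; exact ⟨h1, h2⟩
    · rintro ⟨h1, h2⟩; exact ⟨⟨by omega, h1⟩, h2⟩
  rw [h1]

theorem sgn_mul_self (v : ℕ) (s : Finset ℕ) : sgn v s * sgn v s = 1 := by
  unfold sgn
  rw [← pow_add, ← two_mul, pow_mul]
  simp

variable (R : Type) [CommRing R]

theorem bd_single (s : Finset ℕ) (r : R) :
    bd R (Finsupp.single s r) =
      ∑ v ∈ s, Finsupp.single (s.erase v) (r * ((sgn v s : ℤ) : R)) := by
  unfold bd
  rw [Finsupp.linearCombination_single, Finset.smul_sum]
  apply Finset.sum_congr rfl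
  intro v _
  rw [Finsupp.smul_single, smul_eq_mul]

theorem bd_bd_single (s : Finset ℕ) : bd R (bd R (Finsupp.single s 1)) = 0 := by
  rw [bd_single, map_sum]
  have h : ∀ v ∈ s, bd R (Finsupp.single (s.erase v) ((1 : R) * ((sgn v s : ℤ) : R)))
      = ∑ w ∈ s.erase v, Finsupp.single ((s.erase v).erase w)
          (((sgn v s * sgn w (s.erase v) : ℤ) : ℤ) : R) := by
    intro v _
    rw [bd_single]
    apply Finset.sum_congr rfl
    intro w _
    congr 1
    push_cast
    ring
  rw [Finset.sum_congr rfl h, Finset.sum_sigma']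
  apply Finset.sum_involution (fun (p : (_ : ℕ) × ℕ) _ => (⟨p.2, p.1⟩ : (_ : ℕ) × ℕ))
  · rintro ⟨v, w⟩ hp
    simp only [Finset.mem_sigma, Finset.mem_erase] at hp
    obtain ⟨hv, hwv, hw⟩ := hp
    simp only
    rw [Finset.erase_right_comm (a := w) (b := v), ← Finsupp.single_add]
    have key : sgn v s * sgn w (s.erase v) + sgn w s * sgn v (s.erase w) = 0 := by
      rcases lt_or_gt_of_ne hwv with h | h
      · have h1 := sgn_erase_of_lt hw h
        have h2 := sgn_erase_of_gt (s := s) h
        rw [h1, h2]; ring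
      · have h1 := sgn_erase_of_lt hv h
        have h2 := sgn_erase_of_gt (s := s) h
        rw [h1, h2]; ring
    have key2 : ((sgn v s * sgn w (s.erase v) : ℤ) : R) + ((sgn w s * sgn v (s.erase w) : ℤ) : R)
        = 0 := by
      rw [← Int.cast_add, key, Int.cast_zero]
    rw [key2, Finsupp.single_zero]
  · rintro ⟨v, w⟩ hp _ heq
    simp only [Finset.mem_sigma, Finset.mem_erase] at hp
    have := congrArg Sigma.fst heq
    exact hp.2.1 this
  · rintro ⟨v, w⟩ hp
    simp only [Finset.mem_sigma, Finset.mem_erase] at hp ⊢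
    exact ⟨hp.2.2, Ne.symm hp.2.1, hp.1⟩
  · rintro ⟨v, w⟩ _
    rfl

theorem bd_bd (f : Finset ℕ →₀ R) : bd R (bd R f) = 0 := by
  have h : (bd R) ∘ₗ (bd R) = 0 := by
    apply Finsupp.lhom_ext
    intro s r
    have : Finsupp.single s r = r • Finsupp.single s (1 : R) := by
      rw [Finsupp.smul_single, smul_eq_mul, mul_one]
    rw [LinearMap.comp_apply, this, map_smul, map_smul, bd_bd_single, smul_zero,
      LinearMap.zero_apply]
  exact LinearMap.congr_fun h f

/-- The cone operator with apex `0`. -/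
noncomputable def cone : (Finset ℕ →₀ R) →ₗ[R] (Finset ℕ →₀ R) :=
  Finsupp.linearCombination R
    (fun s => if 0 ∈ s then 0 else Finsupp.single (insert 0 s) (1 : R))

theorem cone_single_mem {s : Finset ℕ} (h : 0 ∈ s) (r : R) :
    cone R (Finsupp.single s r) = 0 := by
  unfold cone
  rw [Finsupp.linearCombination_single, if_pos h, smul_zero]

theorem cone_single_not_mem {s : Finset ℕ} (h : 0 ∉ s) (r : R) :
    cone R (Finsupp.single s r) = Finsupp.single (insert 0 s) r := by
  unfold cone
  rw [Finsupp.linearCombination_single, if_neg h, Finsupp.smul_single, smul_eq_mul, mul_one]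

theorem bd_cone_single (s : Finset ℕ) :
    bd R (cone R (Finsupp.single s 1)) + cone R (bd R (Finsupp.single s 1)) =
      Finsupp.single s 1 := by
  by_cases h : 0 ∈ s
  · rw [cone_single_mem R h, map_zero, zero_add, bd_single, map_sum,
      Finset.sum_eq_single_of_mem 0 h]
    · rw [cone_single_not_mem R (Finset.notMem_erase 0 s), Finset.insert_erase h, sgn_zero]
      simp
    · intro v _ hv0
      exact cone_single_mem R (Finset.mem_erase.mpr ⟨Ne.symm hv0, h⟩) _
  · rw [cone_single_not_mem R h, bd_single, Finset.sum_insert h, bd_single, map_sum,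
      Finset.erase_insert h, sgn_zero]
    have key : ∑ v ∈ s, Finsupp.single ((insert 0 s).erase v)
          ((1 : R) * ((sgn v (insert 0 s) : ℤ) : R)) +
        ∑ v ∈ s, cone R (Finsupp.single (s.erase v) ((1 : R) * ((sgn v s : ℤ) : R))) = 0 := by
      rw [← Finset.sum_add_distrib]
      apply Finset.sum_eq_zero
      intro v hv
      have hv0 : v ≠ 0 := fun h0 => h (h0 ▸ hv)
      have h1 : 0 ∉ s.erase v := fun h' => h (Finset.mem_of_mem_erase h')
      have h2 : (insert 0 s).erase v = insert 0 (s.erase v) := by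
        ext x
        simp only [Finset.mem_erase, Finset.mem_insert]
        constructor
        · rintro ⟨h3, h4 | h4⟩
          · exact Or.inl h4
          · exact Or.inr ⟨h3, h4⟩
        · rintro (h4 | ⟨h3, h4⟩)
          · exact ⟨by omega, Or.inl h4⟩
          · exact ⟨h3, Or.inr h4⟩
      have h3 : sgn v (insert 0 s) = - sgn v s := by
        have := sgn_erase_of_lt (Finset.mem_insert_self 0 s) (Nat.pos_of_ne_zero hv0)
        rw [Finset.erase_insert h] at this
        exact this
      rw [cone_single_not_mem R h1, h2, h3, ← Finsupp.single_add]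
      push_cast
      simp
    rw [add_assoc, key]
    simp

theorem bd_cone (f : Finset ℕ →₀ R) : bd R (cone R f) + cone R (bd R f) = f := by
  have h : (bd R) ∘ₗ (cone R) + (cone R) ∘ₗ (bd R) = LinearMap.id := by
    apply Finsupp.lhom_ext
    intro s r
    have : Finsupp.single s r = r • Finsupp.single s (1 : R) := by
      rw [Finsupp.smul_single, smul_eq_mul, mul_one]
    rw [this, map_smul, map_smul, LinearMap.add_apply, LinearMap.comp_apply,
      LinearMap.comp_apply, bd_cone_single, LinearMap.id_apply]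
  exact LinearMap.congr_fun h f

theorem cone_apply_of_not_mem (f : Finset ℕ →₀ R) {s : Finset ℕ} (hs : 0 ∉ s) :
    (cone R f) s = 0 := by
  have h : (Finsupp.lapply s) ∘ₗ (cone R) = (0 : (Finset ℕ →₀ R) →ₗ[R] R) := by
    apply Finsupp.lhom_ext
    intro t r
    rw [LinearMap.comp_apply, LinearMap.zero_apply]
    by_cases h : 0 ∈ t
    · rw [cone_single_mem R h, map_zero]
    · rw [cone_single_not_mem R h, Finsupp.lapply_apply, Finsupp.single_apply, if_neg]
      intro h1
      exact hs (h1 ▸ Finset.mem_insert_self 0 t)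
  exact LinearMap.congr_fun h f

/-- the subsets of `{0, ..., N-1}` with `n` elements -/
def Sk (N n : ℕ) : Set (Finset ℕ) := {s | s ⊆ Finset.range N ∧ s.card = n}

theorem supp_ext {M : Type} [AddCommGroup M] [Module R M] {S : Set (Finset ℕ)}
    {f g : (Finset ℕ →₀ R) →ₗ[R] M}
    (h : ∀ s ∈ S, f (Finsupp.single s 1) = g (Finsupp.single s 1))
    {x : Finset ℕ →₀ R} (hx : x ∈ Finsupp.supported R R S) : f x = g x := by
  rw [Finsupp.supported_eq_span_single] at hx
  refine LinearMap.eqOn_span (s := (fun i => Finsupp.single i (1 : R)) '' S) ?_ hx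
  rintro _ ⟨s, hs, rfl⟩
  exact h s hs

theorem supp_map {S : Set (Finset ℕ)} {P : Submodule R (Finset ℕ →₀ R)}
    {f : (Finset ℕ →₀ R) →ₗ[R] (Finset ℕ →₀ R)}
    (h : ∀ s ∈ S, f (Finsupp.single s 1) ∈ P)
    {x : Finset ℕ →₀ R} (hx : x ∈ Finsupp.supported R R S) : f x ∈ P := by
  rw [Finsupp.supported_eq_span_single] at hx
  have : Submodule.span R ((fun i => Finsupp.single i (1 : R)) '' S) ≤ P.comap f := by
    rw [Submodule.span_le]
    rintro _ ⟨s, hs, rfl⟩
    exact h s hs
  exact this hx

theorem bd_mem {N n : ℕ} {f : Finset ℕ →₀ R}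
    (hf : f ∈ Finsupp.supported R R (Sk N (n + 1))) :
    bd R f ∈ Finsupp.supported R R (Sk N n) := by
  refine supp_map R ?_ hf
  rintro s ⟨hs, hc⟩
  rw [bd_single]
  apply Submodule.sum_mem
  intro v hv
  apply Finsupp.single_mem_supported
  refine ⟨(Finset.erase_subset _ _).trans hs, ?_⟩
  rw [Finset.card_erase_of_mem hv, hc]
  rfl

theorem cone_mem {N n : ℕ} (hN : 0 < N) {f : Finset ℕ →₀ R}
    (hf : f ∈ Finsupp.supported R R (Sk N n)) :
    cone R f ∈ Finsupp.supported R R (Sk N (n + 1)) := by
  refine supp_map R ?_ hf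
  rintro s ⟨hs, hc⟩
  by_cases h : 0 ∈ s
  · rw [cone_single_mem R h]; exact Submodule.zero_mem _
  · rw [cone_single_not_mem R h]
    apply Finsupp.single_mem_supported
    refine ⟨?_, ?_⟩
    · intro x hx
      rcases Finset.mem_insert.mp hx with h1 | h1
      · rw [h1]; exact Finset.mem_range.mpr hN
      · exact hs h1
    · rw [Finset.card_insert_of_notMem h, hc]

end Q171.QA
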