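import Pool.Agent.Q171.QA.Cone

/-!
# The homology of complexes with full `(d-1)`-skeleton, some `d`-faces, and partial cone
-/

open Finset

namespace Q171.QA

theorem mem_cycles {X : SComplex} {R : Type} [CommRing R] {n : ℕ} {z : Finset ℕ →₀ R} :
    z ∈ X.cycles R n ↔ z ∈ X.chains R n ∧ bd R z = 0 := by
  unfold SComplex.cycles
  rw [Submodule.mem_inf, LinearMap.mem_ker]

/-- The relation given by a simplex `σ` on a function on its facets. -/
def rel {A : Type} [AddCommGroup A] (c : Finset ℕ → A) (s : Finset ℕ) : A :=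
  ∑ v ∈ s, sgn v s • c (s.erase v)

/-- The faces: everything of dimension `< d` on `{0, ..., N-1}`, the `d`-faces `F`, and the cones
with apex `0` over the `(d-1)`-simplices outside `B`. -/
def cxFaces (d N : ℕ) (B F : Finset (Finset ℕ)) : Finset (Finset ℕ) :=
  ((Finset.range N).powerset.filter (fun s => s.card ≤ d)) ∪ F ∪
    ((Finset.range N).powerset.filter (fun s => s.card = d + 1 ∧ 0 ∈ s ∧ s.erase 0 ∉ B))

structure Ok (d N : ℕ) (B F : Finset (Finset ℕ)) : Prop where
  hd : 0 < d
  hN : 0 < N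
  hF : ∀ s ∈ F, s ⊆ Finset.range N ∧ s.card = d + 1 ∧ 0 ∉ s
  hB : ∀ s ∈ B, s ⊆ Finset.range N ∧ s.card = d ∧ 0 ∉ s

variable {d N : ℕ} {B F : Finset (Finset ℕ)}

theorem mem_cxFaces {s : Finset ℕ} : s ∈ cxFaces d N B F ↔
    (s ⊆ Finset.range N ∧ s.card ≤ d) ∨ s ∈ F ∨
      (s ⊆ Finset.range N ∧ s.card = d + 1 ∧ 0 ∈ s ∧ s.erase 0 ∉ B) := by
  unfold cxFaces
  simp only [Finset.mem_union, Finset.mem_filter, Finset.mem_powerset]
  tauto

/-- the complex -/
def cx (h : Ok d N B F) : SComplex where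
  faces := cxFaces d N B F
  empty_mem := by
    rw [mem_cxFaces]
    left
    exact ⟨Finset.empty_subset _, by simp⟩
  down_closed := by
    intro s hs t hts
    rw [mem_cxFaces] at hs
    have hsN : s ⊆ Finset.range N ∧ s.card ≤ d + 1 := by
      rcases hs with h1 | h1 | h1
      · exact ⟨h1.1, by omega⟩
      · have := h.hF s h1; exact ⟨this.1, this.2.1.le⟩
      · exact ⟨h1.1, h1.2.1.le⟩
    by_cases hc : t = s
    · rw [hc, mem_cxFaces]; exact hs
    · rw [mem_cxFaces]
      left
      refine ⟨hts.trans hsN.1, ?_⟩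
      have : t.card < s.card := Finset.card_lt_card (lt_of_le_of_ne hts hc)
      omega

theorem cx_le (h : Ok d N B F) {s : Finset ℕ} (hs : s ∈ (cx h).faces) :
    s ⊆ Finset.range N ∧ s.card ≤ d + 1 := by
  have hs' : s ∈ cxFaces d N B F := hs
  rw [mem_cxFaces] at hs'
  rcases hs' with h1 | h1 | h1
  · exact ⟨h1.1, by omega⟩
  · have := h.hF s h1; exact ⟨this.1, this.2.1.le⟩
  · exact ⟨h1.1, h1.2.1.le⟩

theorem chains_low (h : Ok d N B F) (R : Type) [CommRing R] {n : ℕ} (hn : n ≤ d) :
    (cx h).chains R n = Finsupp.supported R R (Sk N n) := by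
  unfold SComplex.chains
  congr 1
  ext s
  simp only [Set.mem_ofPred_eq, Sk]
  constructor
  · rintro ⟨h1, h2⟩
    exact ⟨(cx_le h h1).1, h2⟩
  · rintro ⟨h1, h2⟩
    refine ⟨?_, h2⟩
    show s ∈ cxFaces d N B F
    rw [mem_cxFaces]
    left
    exact ⟨h1, by omega⟩

/-- lower homology vanishes -/
theorem low_exact (h : Ok d N B F) (R : Type) [CommRing R] {n : ℕ} (hn : n < d) :
    (cx h).cycles R n ≤ (cx h).boundaries R n := by
  intro z hz
  obtain ⟨h1, h2⟩ := mem_cycles.mp hz
  rw [chains_low h R hn.le] at h1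
  refine ⟨cone R z, ?_, ?_⟩
  · rw [chains_low h R hn]
    exact cone_mem R h.hN h1
  · have := bd_cone R z
    rw [h2, map_zero, add_zero] at this
    exact this

/-- the class of the cycle through the cone over a `(d-1)`-simplex `τ ∈ B`, in the chains modulo
boundaries -/
noncomputable def cc (h : Ok d N B F) (R : Type) [CommRing R] (t : Finset ℕ) :
    (Finset ℕ →₀ R) ⧸ ((cx h).boundaries R d) :=
  if t ∈ B then Submodule.Quotient.mk (bd R (Finsupp.single (insert 0 t) 1)) else 0

theorem cc_not_mem (h : Ok d N B F) (R : Type) [CommRing R] {t : Finset ℕ} (ht : t ∉ B) :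
    cc h R t = 0 := if_neg ht

theorem mk_bd_cone_single (h : Ok d N B F) (R : Type) [CommRing R] {s : Finset ℕ}
    (hs : s ∈ Sk N d) :
    (Submodule.Quotient.mk (bd R (cone R (Finsupp.single s 1))) :
      (Finset ℕ →₀ R) ⧸ ((cx h).boundaries R d)) = cc h R s := by
  by_cases h0 : 0 ∈ s
  · have hsB : s ∉ B := fun hB => (h.hB s hB).2.2 h0
    rw [cone_single_mem R h0, map_zero, cc_not_mem h R hsB]
    exact Submodule.Quotient.mk_zero _
  · rw [cone_single_not_mem R h0]
    unfold cc
    by_cases hB : s ∈ B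
    · rw [if_pos hB]
    · rw [if_neg hB]
      rw [Submodule.Quotient.mk_eq_zero]
      refine ⟨_, ?_, rfl⟩
      apply Finsupp.single_mem_supported
      have hcard : (insert 0 s).card = d + 1 := by
        rw [Finset.card_insert_of_notMem h0, hs.2]
      refine ⟨?_, hcard⟩
      show insert 0 s ∈ cxFaces d N B F
      rw [mem_cxFaces]
      right; right
      refine ⟨?_, hcard, Finset.mem_insert_self _ _, ?_⟩
      · intro x hx
        rcases Finset.mem_insert.mp hx with h1 | h1
        · rw [h1]; exact Finset.mem_range.mpr h.hN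
        · exact hs.1 h1
      · rw [Finset.erase_insert h0]; exact hB

/-- every class is a combination of the classes `cc` -/
theorem mk_cycle (h : Ok d N B F) (R : Type) [CommRing R] {z : Finset ℕ →₀ R}
    (hz : z ∈ (cx h).cycles R d) :
    (Submodule.Quotient.mk z : (Finset ℕ →₀ R) ⧸ ((cx h).boundaries R d)) =
      Finsupp.linearCombination R (cc h R) z := by
  obtain ⟨h1, h2⟩ := mem_cycles.mp hz
  rw [chains_low h R le_rfl] at h1
  have h3 := bd_cone R z
  rw [h2, map_zero, add_zero] at h3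
  have key : (((cx h).boundaries R d).mkQ ∘ₗ bd R ∘ₗ cone R) z =
      Finsupp.linearCombination R (cc h R) z := by
    refine supp_ext R ?_ h1
    intro s hs
    rw [Finsupp.linearCombination_single, one_smul]
    exact mk_bd_cone_single h R hs
  rw [← key]
  show _ = Submodule.Quotient.mk (bd R (cone R z))
  rw [h3]

/-- the classes `cc` satisfy the relations -/
theorem cc_rel (h : Ok d N B F) (R : Type) [CommRing R] {s : Finset ℕ} (hs : s ∈ F) :
    rel (cc h R) s = 0 := by
  have hsF := h.hF s hs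
  have h1 : (((cx h).boundaries R d).mkQ ∘ₗ bd R ∘ₗ cone R) (bd R (Finsupp.single s 1)) =
      rel (cc h R) s := by
    rw [bd_single, map_sum]
    unfold rel
    apply Finset.sum_congr rfl
    intro v hv
    have hmem : s.erase v ∈ Sk N d := by
      refine ⟨(Finset.erase_subset _ _).trans hsF.1, ?_⟩
      rw [Finset.card_erase_of_mem hv, hsF.2.1]
      rfl
    have h2 : Finsupp.single (s.erase v) ((1 : R) * ((sgn v s : ℤ) : R)) =
        (sgn v s) • Finsupp.single (s.erase v) (1 : R) := by
      rw [Finsupp.smul_single]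
      congr 1
      simp
    rw [h2, map_zsmul]
    congr 1
    exact mk_bd_cone_single h R hmem
  have h3 : bd R (cone R (bd R (Finsupp.single s 1))) = bd R (Finsupp.single s (1 : R)) := by
    have := bd_cone R (bd R (Finsupp.single s (1 : R)))
    rw [bd_bd, map_zero, add_zero] at this
    exact this
  rw [← h1]
  show Submodule.Quotient.mk (bd R (cone R (bd R (Finsupp.single s 1)))) = _
  rw [h3]
  rw [Submodule.Quotient.mk_eq_zero]
  refine ⟨_, ?_, rfl⟩
  apply Finsupp.single_mem_supported
  refine ⟨?_, hsF.2.1⟩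
  show s ∈ cxFaces d N B F
  rw [mem_cxFaces]
  right; left; exact hs

theorem cc_cycle (h : Ok d N B F) (R : Type) [CommRing R] {t : Finset ℕ} (ht : t ∈ B) :
    bd R (Finsupp.single (insert 0 t) (1 : R)) ∈ (cx h).cycles R d := by
  refine mem_cycles.mpr ⟨?_, ?_⟩
  · rw [chains_low h R le_rfl]
    apply bd_mem
    apply Finsupp.single_mem_supported
    have htB := h.hB t ht
    refine ⟨?_, ?_⟩
    · intro x hx
      rcases Finset.mem_insert.mp hx with h1 | h1
      · rw [h1]; exact Finset.mem_range.mpr h.hN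
      · exact htB.1 h1
    · rw [Finset.card_insert_of_notMem htB.2.2, htB.2.1]
  · rw [bd_bd]

/-- The data presenting the group `G` by the cells `B` and relations `F`. -/
structure Pres (B F : Finset (Finset ℕ)) (G : Type) [AddCommGroup G] (val : Finset ℕ → G) :
    Prop where
  zero : ∀ t, t ∉ B → val t = 0
  rels : ∀ s ∈ F, rel val s = 0
  gen : AddSubgroup.closure (Set.range val) = ⊤
  univ : ∀ (A : Type) [AddCommGroup A] (c : Finset ℕ → A), (∀ t, t ∉ B → c t = 0) →
    (∀ s ∈ F, rel c s = 0) → ∃ ψ : G →+ A, ∀ t, ψ (val t) = c t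

theorem lc_bd_single {G : Type} [AddCommGroup G] (val : Finset ℕ → G) (s : Finset ℕ) :
    Finsupp.linearCombination ℤ val (bd ℤ (Finsupp.single s 1)) = rel val s := by
  rw [bd_single, map_sum]
  unfold rel
  apply Finset.sum_congr rfl
  intro v _
  rw [Finsupp.linearCombination_single]
  simp

theorem rel_cone {G : Type} [AddCommGroup G] {val : Finset ℕ → G}
    (h : Ok d N B F) (hz : ∀ t, t ∉ B → val t = 0) {t : Finset ℕ} (ht : 0 ∉ t) :
    rel val (insert 0 t) = val t := by
  unfold rel
  rw [Finset.sum_eq_single_of_mem 0 (Finset.mem_insert_self 0 t)]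
  · rw [sgn_zero, one_smul, Finset.erase_insert ht]
  · intro v _ hv0
    have : (insert 0 t).erase v ∉ B := by
      intro hB
      exact (h.hB _ hB).2.2 (Finset.mem_erase.mpr ⟨Ne.symm hv0, Finset.mem_insert_self 0 t⟩)
    rw [hz _ this, smul_zero]

theorem lc_boundary {G : Type} [AddCommGroup G] {val : Finset ℕ → G}
    (h : Ok d N B F) (hp : Pres B F G val) {z : Finset ℕ →₀ ℤ}
    (hz : z ∈ (cx h).boundaries ℤ d) : Finsupp.linearCombination ℤ val z = 0 := by
  obtain ⟨f, hf, rfl⟩ := hz
  have key : (Finsupp.linearCombination ℤ val ∘ₗ bd ℤ) f = (0 : (Finset ℕ →₀ ℤ) →ₗ[ℤ] G) f := by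
    refine supp_ext ℤ ?_ hf
    rintro s ⟨hs, hc⟩
    rw [LinearMap.comp_apply, lc_bd_single, LinearMap.zero_apply]
    have hs' : s ∈ cxFaces d N B F := hs
    rw [mem_cxFaces] at hs'
    rcases hs' with h1 | h1 | h1
    · omega
    · exact hp.rels s h1
    · obtain ⟨_, _, h0, hB⟩ := h1
      have h2 := rel_cone h hp.zero (Finset.notMem_erase 0 s)
      rw [Finset.insert_erase h0] at h2
      rw [h2]
      exact hp.zero _ hB
  exact key

/-- The homology in degree `d - 1` is the presented group. -/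
theorem homology_iso {G : Type} [AddCommGroup G] {val : Finset ℕ → G}
    (h : Ok d N B F) (hp : Pres B F G val) : Nonempty ((cx h).redH ℤ d ≃+ G) := by
  let φ : ↥((cx h).cycles ℤ d).toAddSubgroup →+ G :=
    (Finsupp.linearCombination ℤ val).toAddMonoidHom.comp
      ((cx h).cycles ℤ d).toAddSubgroup.subtype
  have hφ : ∀ z, φ z = Finsupp.linearCombination ℤ val (z : Finset ℕ →₀ ℤ) := fun z => rfl
  have hker : ∀ x ∈ ((cx h).boundaries ℤ d).toAddSubgroup.addSubgroupOf
      ((cx h).cycles ℤ d).toAddSubgroup, φ x = 0 := by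
    intro x hx
    rw [AddSubgroup.mem_addSubgroupOf] at hx
    exact lc_boundary h hp hx
  let Φ : (cx h).redH ℤ d →+ G := QuotientAddGroup.lift _ φ hker
  have hΦ : ∀ z, Φ (QuotientAddGroup.mk z) = φ z := fun z => QuotientAddGroup.lift_mk _ _ _
  obtain ⟨ψ, hψ⟩ := hp.univ _ (cc h ℤ) (fun t ht => cc_not_mem h ℤ ht)
    (fun s hs => cc_rel h ℤ hs)
  have hinj : Function.Injective Φ := by
    rw [injective_iff_map_eq_zero]
    intro x hx
    induction x using QuotientAddGroup.induction_on with
    | H z =>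
      rw [hΦ, hφ] at hx
      rw [QuotientAddGroup.eq_zero_iff, AddSubgroup.mem_addSubgroupOf]
      have h1 := mk_cycle h ℤ z.2
      have h2 : Finsupp.linearCombination ℤ (cc h ℤ) (z : Finset ℕ →₀ ℤ) =
          ψ (Finsupp.linearCombination ℤ val (z : Finset ℕ →₀ ℤ)) := by
        rw [Finsupp.linearCombination_apply, Finsupp.linearCombination_apply, Finsupp.sum,
          Finsupp.sum, map_sum]
        apply Finset.sum_congr rfl
        intro t _
        rw [map_zsmul, hψ]
      rw [h2, hx, map_zero] at h1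
      rw [Submodule.Quotient.mk_eq_zero] at h1
      exact h1
  have hsurj : Function.Surjective Φ := by
    rw [← AddMonoidHom.range_eq_top, ← top_le_iff, ← hp.gen, AddSubgroup.closure_le]
    rintro _ ⟨t, rfl⟩
    by_cases ht : t ∈ B
    · refine ⟨QuotientAddGroup.mk ⟨bd ℤ (Finsupp.single (insert 0 t) (1 : ℤ)),
        cc_cycle h ℤ ht⟩, ?_⟩
      rw [hΦ, hφ]
      show Finsupp.linearCombination ℤ val (bd ℤ (Finsupp.single (insert 0 t) (1 : ℤ))) = val t
      rw [lc_bd_single]
      exact rel_cone h hp.zero (h.hB t ht).2.2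
    · rw [hp.zero t ht]
      exact AddSubgroup.zero_mem _
  exact ⟨AddEquiv.ofBijective Φ ⟨hinj, hsurj⟩⟩

end Q171.QA
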