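import Mathlib

/-!
# Simplicial homology of finite abstract simplicial complexes with vertices in `ℕ`
-/

open Finset

namespace Q171.QA

/-- A finite abstract simplicial complex with vertices in `ℕ`: a finite set of finite subsets of
`ℕ` (the faces, the empty face included) that is closed under taking subsets. -/
structure SComplex where
  faces : Finset (Finset ℕ)
  empty_mem : ∅ ∈ faces
  down_closed : ∀ s ∈ faces, ∀ t ⊆ s, t ∈ faces

/-- The incidence sign of the vertex `v` in the simplex `s`: `(-1)` to the number of vertices
of `s` smaller than `v`. -/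
def sgn (v : ℕ) (s : Finset ℕ) : ℤ := (-1) ^ (s.filter (· < v)).card

/-- The simplicial boundary operator on formal `R`-linear combinations of finite subsets of `ℕ`
(`s` generating degree `s.card - 1`, so that the empty set is in degree `-1`):
`∂ s = ∑_{v ∈ s} (-1)^{#{w ∈ s, w < v}} (s \ {v})`. -/
noncomputable def bd (R : Type) [CommRing R] : (Finset ℕ →₀ R) →ₗ[R] (Finset ℕ →₀ R) :=
  Finsupp.linearCombination R
    (fun s => ∑ v ∈ s, Finsupp.single (s.erase v) ((sgn v s : ℤ) : R))

namespace SComplex

/-- The augmented simplicial chain group with coefficients in `R` in degree `n - 1`: the formal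
linear combinations of the faces with `n` vertices. -/
noncomputable def chains (X : SComplex) (R : Type) [CommRing R] (n : ℕ) :
    Submodule R (Finset ℕ →₀ R) :=
  Finsupp.supported R R {s | s ∈ X.faces ∧ s.card = n}

/-- Augmented cycles in degree `n - 1`. -/
noncomputable def cycles (X : SComplex) (R : Type) [CommRing R] (n : ℕ) :
    Submodule R (Finset ℕ →₀ R) :=
  X.chains R n ⊓ LinearMap.ker (bd R)

/-- Boundaries in degree `n - 1`. -/
noncomputable def boundaries (X : SComplex) (R : Type) [CommRing R] (n : ℕ) :
    Submodule R (Finset ℕ →₀ R) :=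
  (X.chains R (n + 1)).map (bd R)

/-- Reduced simplicial homology with coefficients in `R` in degree `n - 1`. -/
abbrev redH (X : SComplex) (R : Type) [CommRing R] (n : ℕ) : Type :=
  ↥(X.cycles R n).toAddSubgroup ⧸
    (X.boundaries R n).toAddSubgroup.addSubgroupOf (X.cycles R n).toAddSubgroup

/-- Ordinary (not augmented) cycles in degree `i`: in degree `0` every chain is a cycle. -/
noncomputable def ordCycles (X : SComplex) (R : Type) [CommRing R] :
    ℕ → Submodule R (Finset ℕ →₀ R)
  | 0 => X.chains R 1
  | (i + 1) => X.cycles R (i + 2)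

/-- Ordinary simplicial homology with coefficients in `R` in degree `i`. -/
abbrev H (X : SComplex) (R : Type) [CommRing R] (i : ℕ) : Type :=
  ↥(X.ordCycles R i).toAddSubgroup ⧸
    (X.boundaries R (i + 1)).toAddSubgroup.addSubgroupOf (X.ordCycles R i).toAddSubgroup

/-- The complex is `ℚ`-acyclic: its reduced rational homology vanishes in every degree. -/
def QAcyclic (X : SComplex) : Prop := ∀ n : ℕ, Subsingleton (X.redH ℚ n)

/-- The complex has dimension `d`. -/
def HasDim (X : SComplex) (d : ℕ) : Prop :=
  (∃ s ∈ X.faces, s.card = d + 1) ∧ ∀ s ∈ X.faces, s.card ≤ d + 1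

/-- The vertex set. -/
def vertices (X : SComplex) : Finset ℕ := X.faces.biUnion id

end SComplex

end Q171.QA
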