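import Pool.Agent.Q171.QA.Cells

/-!
# The relations as equations between the values of the cells
-/

open Finset

namespace Q171.QA

variable {d T : ℕ}

namespace Layout

variable (L : Layout d T)

/-- the equation expressed by the simplex `(k, j, t)` -/
def eqn {A : Type} [AddCommGroup A] (dbl : ℕ → Bool) (c : Finset ℕ → A) (k j t : ℕ) : Prop :=
  if k = 0 then c (L.cell 6 d (t - 1)) = c (L.cell 6 1 t)
  else if k = 1 then c (L.cell 0 d t) - c (L.cell 1 d t) + c (L.cell 2 d t) = 0
  else if k = 2 then c (L.cell 5 d t) = c (L.cell 1 d t)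
  else if k = 3 then c (L.cell 3 d t) + c (L.cell 2 d t) = 0
  else if k = 4 then c (L.cell 5 d t) = c (L.cell 4 d t)
  else if k = 5 then
    (if j = 1 then c (L.cell 0 d (t - 1)) = c (L.cell 5 1 t)
      else c (L.cell 5 (j - 1) t) = c (L.cell 5 j t))
  else
    (if j = 1 then (if dbl t then c (L.cell 3 d t) = c (L.cell 4 d t)
        else c (L.cell 3 d t) = c (L.cell 6 d t))
      else c (L.cell 6 (j - 1) t) = c (L.cell 6 j t))

variable {L}

theorem mem_B {kill : ℕ → Bool} {s : Finset ℕ} (h : s ∈ L.B kill) :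
    ∃ k j t, (k, j, t) ∈ BI d T kill ∧ s = L.cell k j t := by
  unfold B at h
  rw [Finset.mem_image] at h
  obtain ⟨⟨k, j, t⟩, hp, rfl⟩ := h
  exact ⟨k, j, t, hp, rfl⟩

theorem cell_mem_B {kill : ℕ → Bool} {k j t : ℕ} (h : (k, j, t) ∈ BI d T kill) :
    L.cell k j t ∈ L.B kill := Finset.mem_image.mpr ⟨(k, j, t), h, rfl⟩

/-- no cell of `B` has two vertices in one class -/
theorem notMem_B_two {kill : ℕ → Bool} {s : Finset ℕ} {i l l' : ℕ} (hl : l < L.K)
    (hl' : l' < L.K) (hne : l ≠ l') (h1 : vx L.K i l ∈ s) (h2 : vx L.K i l' ∈ s) :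
    s ∉ L.B kill := by
  intro h
  obtain ⟨k, j, t, _, rfl⟩ := mem_B h
  unfold cell at h1 h2
  rw [vx_mem_mk (lab_lt' (Finset.erase_subset _ _)) hl] at h1
  rw [vx_mem_mk (lab_lt' (Finset.erase_subset _ _)) hl'] at h2
  exact hne (h1.2.trans h2.2.symm)

theorem rel_cadj {A : Type} [AddCommGroup A] {c : Finset ℕ → A} {kill : ℕ → Bool}
    (hc : ∀ s, s ∉ L.B kill → c s = 0) {k j t k' j' t' i : ℕ} (h : L.CAdj k j t k' j' t' i) :
    rel c (L.cell k j t ∪ L.cell k' j' t') = 0 ↔ c (L.cell k j t) = c (L.cell k' j' t') := by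
  obtain ⟨h1, h2, h3⟩ := h
  unfold cell
  rw [h1, h2]
  apply rel_adj h3
  intro s hs1 hs2
  exact hc s (notMem_B_two (h3.hf i h3.hj) (h3.hg i h3.hj) h3.ne hs1 hs2)

/-- supports of cells of `B` -/
theorem notMem_B_erase {kill : ℕ → Bool} {f : ℕ → ℕ} (hf : ∀ i ∈ Finset.range (d + 1), f i < L.K)
    {e : ℕ} (he : e ≤ d) (h : ∀ k j t, (k, j, t) ∈ BI d T kill → ex k = e →
      ∃ i ∈ (Finset.range (d + 1)).erase e, f i ≠ L.lab k j t i) :
    mks L.K ((Finset.range (d + 1)).erase e) f ∉ L.B kill := by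
  intro hB
  obtain ⟨k, j, t, hm, heq⟩ := mem_B hB
  unfold cell at heq
  obtain ⟨h1, h2⟩ := mk_inj (fun i hi => hf i (Finset.mem_of_mem_erase hi))
    (lab_lt' (Finset.erase_subset _ _)) heq
  have hex : e = ex k := erase_inj he (by have := ex_le k; have := L.hd; omega) h1
  obtain ⟨i, hi, hne⟩ := h k j t hm hex.symm
  exact hne (h2 i hi)

theorem ex_eq_one {k : ℕ} (h : ex k = 1) : k = 1 := by
  unfold ex at h
  split_ifs at h <;> omega

theorem ex_eq_two {k : ℕ} (h : ex k = 2) : k = 2 := by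
  unfold ex at h
  split_ifs at h <;> omega

theorem rel_z {A : Type} [AddCommGroup A] {c : Finset ℕ → A} {kill : ℕ → Bool}
    (hc : ∀ s, s ∉ L.B kill → c s = 0) {k t : ℕ} :
    rel c (mks L.K (Finset.range (d + 1)) (L.lab k d t)) =
      c (mks L.K ((Finset.range (d + 1)).erase 0) (L.lab k d t)) -
      c (mks L.K ((Finset.range (d + 1)).erase 1) (L.lab k d t)) +
      c (mks L.K ((Finset.range (d + 1)).erase 2) (L.lab k d t)) := by
  apply rel_mk L.hd (lab_lt' (Finset.Subset.refl _))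
  intro i hi hi3
  apply hc
  apply notMem_B_erase (lab_lt' (Finset.Subset.refl _))
    (by rw [Finset.mem_range] at hi; omega)
  intro k' j' t' _ hex
  have := ex_le k'
  omega

theorem cell_shift (k t : ℕ) (hk : ex k = 0) : L.cell k 0 t = L.cell k d (t - 1) := by
  unfold cell
  rw [hk]
  apply mk_congr
  intro i hi
  rw [Finset.mem_erase, Finset.mem_range] at hi
  unfold lab
  rw [if_neg (by omega), if_pos (by omega)]

theorem rel_iff {A : Type} [AddCommGroup A] {c : Finset ℕ → A} {kill : ℕ → Bool}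
    (hc : ∀ s, s ∉ L.B kill → c s = 0) (dbl : ℕ → Bool) {k j t : ℕ} (hj1 : 1 ≤ j) (hjd : j ≤ d)
    (ht : 1 ≤ t) :
    rel c (L.sim dbl k j t) = 0 ↔ L.eqn dbl c k j t := by
  have hd := L.hd
  unfold sim eqn
  by_cases hk0 : k = 0
  · rw [if_pos hk0, if_pos hk0, rel_cadj hc (L.cadj_step (k := 6) (j := 1) rfl le_rfl (by omega) ht),
      show 1 - 1 = 0 from rfl, cell_shift 6 t rfl]
  rw [if_neg hk0, if_neg hk0]
  by_cases hk1 : k = 1
  · rw [if_pos hk1, if_pos hk1, rel_z hc]
    rfl
  rw [if_neg hk1, if_neg hk1]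
  by_cases hk2 : k = 2
  · rw [if_pos hk2, if_pos hk2, rel_z hc]
    have h0 : mks L.K ((Finset.range (d + 1)).erase 0) (L.lab 5 d t) = L.cell 5 d t := rfl
    have h1 : mks L.K ((Finset.range (d + 1)).erase 1) (L.lab 5 d t) = L.cell 1 d t := by
      unfold cell
      apply mk_congr
      intro i hi
      rw [Finset.mem_erase] at hi
      unfold lab
      have : pat 5 i = pat 1 i := by unfold pat; simp [hi.1]
      rw [this]
    have h2 : c (mks L.K ((Finset.range (d + 1)).erase 2) (L.lab 5 d t)) = 0 := by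
      apply hc
      apply notMem_B_erase (lab_lt' (Finset.Subset.refl _)) hd
      intro k' j' t' _ hex
      have := ex_eq_two hex
      subst this
      refine ⟨1, by rw [Finset.mem_erase, Finset.mem_range]; omega, ?_⟩
      intro h
      have := (lab_eq h).1
      exact absurd this (by decide)
    rw [h0, h1, h2, add_zero, sub_eq_zero]
  rw [if_neg hk2, if_neg hk2]
  by_cases hk3 : k = 3
  · rw [if_pos hk3, if_pos hk3, rel_z hc]
    have h0 : mks L.K ((Finset.range (d + 1)).erase 0) (L.lab 3 d t) = L.cell 3 d t := rfl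
    have h2 : mks L.K ((Finset.range (d + 1)).erase 2) (L.lab 3 d t) = L.cell 2 d t := by
      unfold cell
      apply mk_congr
      intro i hi
      rw [Finset.mem_erase] at hi
      unfold lab
      have : pat 3 i = pat 2 i := by unfold pat; simp [hi.1]
      rw [this]
    have h1 : c (mks L.K ((Finset.range (d + 1)).erase 1) (L.lab 3 d t)) = 0 := by
      apply hc
      apply notMem_B_erase (lab_lt' (Finset.Subset.refl _)) (by omega)
      intro k' j' t' _ hex
      have := ex_eq_one hex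
      subst this
      refine ⟨2, by rw [Finset.mem_erase, Finset.mem_range]; omega, ?_⟩
      intro h
      have := (lab_eq h).1
      exact absurd this (by decide)
    rw [h0, h1, h2, sub_zero]
  rw [if_neg hk3, if_neg hk3]
  by_cases hk4 : k = 4
  · rw [if_pos hk4, if_pos hk4, rel_cadj hc L.cadj_54]
  rw [if_neg hk4, if_neg hk4]
  by_cases hk5 : k = 5
  · rw [if_pos hk5, if_pos hk5]
    by_cases hj : j = 1
    · rw [if_pos hj, if_pos hj, rel_cadj hc L.cadj_first, cell_shift 0 t rfl]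
    · rw [if_neg hj, if_neg hj, rel_cadj hc (L.cadj_step (k := 5) rfl hj1 hjd ht)]
  rw [if_neg hk5, if_neg hk5]
  by_cases hj : j = 1
  · rw [if_pos hj, if_pos hj]
    by_cases hdb : dbl t = true
    · rw [if_pos hdb, if_pos hdb, rel_cadj hc L.cadj_34]
    · rw [if_neg hdb, if_neg hdb, rel_cadj hc L.cadj_36]
  · rw [if_neg hj, if_neg hj, rel_cadj hc (L.cadj_step (k := 6) rfl hj1 hjd ht)]

theorem cadj_ok {k j t k' j' t' i : ℕ} (h : L.CAdj k j t k' j' t' i) :
    L.cell k j t ∪ L.cell k' j' t' ⊆ Finset.range (1 + (d + 1) * L.K) ∧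
    (L.cell k j t ∪ L.cell k' j' t').card = d + 1 ∧ 0 ∉ L.cell k j t ∪ L.cell k' j' t' := by
  obtain ⟨h1, h2, h3⟩ := h
  have hsub : ∀ i ∈ (Finset.range (d + 1)).erase 0, i ≤ d := by
    intro i hi
    rw [Finset.mem_erase, Finset.mem_range] at hi; omega
  unfold cell
  rw [h1, h2]
  refine ⟨?_, ?_, ?_⟩
  · exact Finset.union_subset (mk_subset hsub h3.hf) (mk_subset hsub h3.hg)
  · rw [h3.card, Finset.card_erase_add_one (by simp), Finset.card_range]
  · rw [Finset.mem_union]
    rintro (h | h)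
    · exact zero_notMem_mk h
    · exact zero_notMem_mk h

theorem mks_ok {k t : ℕ} :
    mks L.K (Finset.range (d + 1)) (L.lab k d t) ⊆ Finset.range (1 + (d + 1) * L.K) ∧
    (mks L.K (Finset.range (d + 1)) (L.lab k d t)).card = d + 1 ∧
    0 ∉ mks L.K (Finset.range (d + 1)) (L.lab k d t) := by
  refine ⟨mk_subset (fun i hi => ?_) (lab_lt' (Finset.Subset.refl _)), ?_, zero_notMem_mk⟩
  · rw [Finset.mem_range] at hi; omega
  · rw [mk_card (lab_lt' (Finset.Subset.refl _)), Finset.card_range]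

theorem sim_ok (dbl : ℕ → Bool) {k j t : ℕ} (hj1 : 1 ≤ j) (hjd : j ≤ d) (ht : 1 ≤ t) :
    L.sim dbl k j t ⊆ Finset.range (1 + (d + 1) * L.K) ∧
    (L.sim dbl k j t).card = d + 1 ∧ 0 ∉ L.sim dbl k j t := by
  have hd := L.hd
  unfold sim
  split_ifs
  · exact cadj_ok (L.cadj_step (k := 6) (j := 1) rfl le_rfl (by omega) ht)
  · exact mks_ok
  · exact mks_ok
  · exact mks_ok
  · exact cadj_ok L.cadj_54
  · exact cadj_ok L.cadj_first
  · exact cadj_ok (L.cadj_step (k := 5) rfl hj1 hjd ht)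
  · exact cadj_ok L.cadj_34
  · exact cadj_ok L.cadj_36
  · exact cadj_ok (L.cadj_step (k := 6) rfl hj1 hjd ht)

theorem ok (dbl kill : ℕ → Bool) : Ok d (1 + (d + 1) * L.K) (L.B kill) (L.F dbl kill) where
  hd := by have := L.hd; omega
  hN := by omega
  hF := by
    intro s hs
    unfold F at hs
    rw [Finset.mem_image] at hs
    obtain ⟨⟨k, j, t⟩, hp, rfl⟩ := hs
    rw [mem_FI] at hp
    exact sim_ok dbl hp.2.1 hp.2.2.1 hp.2.2.2.1
  hB := by
    intro s hs
    obtain ⟨k, j, t, _, rfl⟩ := mem_B hs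
    unfold cell
    refine ⟨?_, ?_, zero_notMem_mk⟩
    · apply mk_subset
      · intro i hi
        rw [Finset.mem_erase, Finset.mem_range] at hi; omega
      · exact lab_lt' (Finset.erase_subset _ _)
    · rw [mk_card (lab_lt' (Finset.erase_subset _ _))]
      have h1 : ex k ∈ Finset.range (d + 1) := by
        rw [Finset.mem_range]; have := ex_le k; have := L.hd; omega
      rw [Finset.card_erase_of_mem h1, Finset.card_range]
      rfl

end Layout

end Q171.QA
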