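import Pool.Agent.Q171.QA.Prog

/-!
# Existence of layouts, and the main theorem
-/

open Finset

namespace Q171.QA

/-- the odd-type moduli -/
def qm (M i : ℕ) : ℕ := (i + 1) * M + 1

theorem qm_coprime {d M i j : ℕ} (hM : (d + 1).factorial ∣ M) (hi : i ≤ d) (hj : j ≤ d)
    (hij : i < j) : Nat.Coprime (qm M i) (qm M j) := by
  unfold qm
  apply Nat.coprime_mul_succ
  have h1 : (j + 1) - (i + 1) ∣ (d + 1).factorial := Nat.dvd_factorial (by omega) (by omega)
  exact h1.trans hM

/-- existence of layouts -/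
theorem layout_exists {d T r : ℕ} (hd : 2 ≤ d) (hT : T < (r + 1) ^ d) :
    ∃ L : Layout d T, L.K = 6 * ((d + 1) * ((d + 1).factorial * (r + 1)) + 1) := by
  set M := (d + 1).factorial * (r + 1) with hMdef
  have hM : (d + 1).factorial ∣ M := Dvd.intro _ rfl
  have hMr : r + 1 ≤ M := Nat.le_mul_of_pos_left _ (Nat.factorial_pos _)
  refine ⟨⟨fun i => 2 * qm M i, 6 * ((d + 1) * M + 1), hd, ?_, ?_, ?_, ?_⟩, rfl⟩
  · intro i hi
    simp only [qm]
    have : (i + 1) * M ≤ (d + 1) * M := Nat.mul_le_mul_right M (by omega)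
    omega
  · intro i _
    simp only [qm]
    omega
  · intro i _
    exact Dvd.intro _ rfl
  · intro e he t ht t' ht' h
    have key : ∀ a b : ℕ, a ≤ b → b ≤ T → (∀ i ≤ d, i ≠ e → a % (2 * qm M i) = b % (2 * qm M i)) →
        a = b := by
      intro a b hab hb hcong
      have h1 : ∏ i ∈ (Finset.range (d + 1)).erase e, qm M i ∣ b - a := by
        apply Finset.prod_dvd_of_isRelPrime
        · intro i hi j hj hne
          rw [Finset.mem_coe, Finset.mem_erase, Finset.mem_range] at hi hj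
          show IsRelPrime (qm M i) (qm M j)
          rw [← Nat.coprime_iff_isRelPrime]
          rcases lt_or_gt_of_ne hne with h2 | h2
          · exact qm_coprime hM (by omega) (by omega) h2
          · exact (qm_coprime hM (by omega) (by omega) h2).symm
        · intro i hi
          rw [Finset.mem_erase, Finset.mem_range] at hi
          have h2 := hcong i (by omega) hi.1
          have h3 : 2 * qm M i ∣ b - a := (Nat.modEq_iff_dvd' hab).mp h2
          exact (Dvd.intro_left 2 rfl).trans h3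
      have h2 : (r + 1) ^ d ≤ ∏ i ∈ (Finset.range (d + 1)).erase e, qm M i := by
        have h3 : ((Finset.range (d + 1)).erase e).card = d := by
          rw [Finset.card_erase_of_mem (Finset.mem_range.mpr (by omega)), Finset.card_range]
          rfl
        have h4 := Finset.pow_card_le_prod ((Finset.range (d + 1)).erase e) (qm M) (r + 1) (by
          intro i _
          unfold qm
          have : 1 * M ≤ (i + 1) * M := Nat.mul_le_mul_right M (by omega)
          omega)
        rw [h3] at h4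
        exact h4
      by_contra hne
      have h3 : 0 < b - a := by omega
      have h4 := Nat.le_of_dvd h3 h1
      omega
    rcases Nat.le_total t t' with h1 | h1
    · exact key t t' h1 ht' h
    · exact (key t' t h1 ht (fun i hi hne => (h i hi hne).symm)).symm

/-- the integer part of the `d`-th root -/
theorem root_exists {d T : ℕ} (hd : 1 ≤ d) (hT : 1 ≤ T) :
    ∃ r : ℕ, 1 ≤ r ∧ r ^ d ≤ T ∧ T < (r + 1) ^ d := by
  have hex : ∃ q : ℕ, T < (q + 1) ^ d := by
    refine ⟨T, ?_⟩
    calc T < T + 1 := Nat.lt_succ_self T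
      _ = (T + 1) ^ 1 := (pow_one _).symm
      _ ≤ (T + 1) ^ d := Nat.pow_le_pow_right (by omega) hd
  classical
  refine ⟨Nat.find hex, ?_, ?_, Nat.find_spec hex⟩
  · by_contra h
    have h0 : Nat.find hex = 0 := by omega
    have := Nat.find_spec hex
    rw [h0] at this
    simp at this
    omega
  · by_cases h0 : Nat.find hex = 0
    · rw [h0, zero_pow (by omega)]; omega
    · have h1 := Nat.find_min hex (m := Nat.find hex - 1) (by omega)
      rw [Nat.sub_add_cancel (by omega)] at h1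
      omega

/-- **Main theorem.** For every `d ≥ 2` there is a constant `C` such that every nontrivial finite
abelian group `G` is the homology in degree `d - 1` of a `d`-dimensional `ℚ`-acyclic simplicial
complex with at most `C (log |G|)^{1/d}` vertices. -/
theorem main (d : ℕ) (hd : 2 ≤ d) : ∃ C : ℝ, ∀ (G : Type) [AddCommGroup G] [Finite G]
    [Nontrivial G], ∃ X : SComplex, X.HasDim d ∧ X.QAcyclic ∧ Nonempty (X.H ℤ (d - 1) ≃+ G) ∧
      (X.vertices.card : ℝ) ≤ C * (Real.log (Nat.card G)) ^ ((1 : ℝ) / d) := by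
  set c0 : ℕ := 1 + (d + 1) * (6 * ((d + 1) * ((d + 1).factorial * 2) + 1)) with hc0
  refine ⟨5 * (c0 : ℝ), ?_⟩
  intro G _ _ _
  obtain ⟨T, dbl, kill, P, g, hp, hb⟩ := good_all G
  have hT : 1 ≤ T := by
    by_contra h
    have hT0 : T = 0 := by omega
    subst hT0
    have h1 := hp.gen
    have h2 : {x : G | ∃ t, 1 ≤ t ∧ t ≤ 0 ∧ g t = x} = ∅ := by
      ext x
      simp only [Set.mem_ofPred_eq, Set.mem_empty_iff_false, iff_false]
      rintro ⟨t, h1, h2, _⟩
      omega
    rw [h2, AddSubgroup.closure_empty] at h1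
    exact bot_ne_top h1
  obtain ⟨r, hr1, hrT, hTr⟩ := root_exists (d := d) (by omega) hT
  obtain ⟨L, hLK⟩ := layout_exists hd hTr
  obtain ⟨X, h1, h2, h3, h4⟩ := L.realise hT hp
  refine ⟨X, h1, h2, h3, ?_⟩
  have h5 : X.vertices.card ≤ c0 * r := by
    refine h4.trans ?_
    rw [hLK, hc0]
    have h6 : r + 1 ≤ 2 * r := by omega
    have h7 : (d + 1).factorial * (r + 1) ≤ (d + 1).factorial * (2 * r) :=
      Nat.mul_le_mul_left _ h6
    have h8 : (d + 1) * ((d + 1).factorial * (r + 1)) + 1 ≤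
        (d + 1) * ((d + 1).factorial * (2 * r)) + r :=
      Nat.add_le_add (Nat.mul_le_mul_left _ h7) hr1
    calc 1 + (d + 1) * (6 * ((d + 1) * ((d + 1).factorial * (r + 1)) + 1))
        ≤ r + (d + 1) * (6 * ((d + 1) * ((d + 1).factorial * (2 * r)) + r)) :=
          Nat.add_le_add hr1 (Nat.mul_le_mul_left _ (Nat.mul_le_mul_left _ h8))
      _ = (1 + (d + 1) * (6 * ((d + 1) * ((d + 1).factorial * 2) + 1))) * r := by ring
  -- the analytic part
  set x : ℝ := Real.log (Nat.card G) with hx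
  have hcard : (2 : ℝ) ≤ Nat.card G := by
    have : 1 < Nat.card G := Finite.one_lt_card
    exact_mod_cast this
  have hlog2 : (0.6931471803 : ℝ) < Real.log 2 := Real.log_two_gt_d9
  have hx0 : 0 < x := Real.log_pos (by linarith)
  have hTx : (T : ℝ) ≤ 5 * x := by
    have h6 : ((2 : ℝ) ^ T) ≤ ((Nat.card G : ℝ)) ^ 3 := by exact_mod_cast hb
    have h7 := Real.log_le_log (by positivity) h6
    rw [Real.log_pow, Real.log_pow] at h7
    push_cast at h7
    have h8 : (T : ℝ) * 0.6931471803 ≤ 3 * x := by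
      have hT0 : (0 : ℝ) ≤ T := Nat.cast_nonneg T
      have := mul_le_mul_of_nonneg_left hlog2.le hT0
      linarith
    nlinarith
  have hrx : (r : ℝ) ^ d ≤ 5 * x := by
    have : ((r ^ d : ℕ) : ℝ) ≤ (T : ℝ) := by exact_mod_cast hrT
    push_cast at this
    linarith
  have hr : (r : ℝ) ≤ 5 * x ^ ((1 : ℝ) / d) := by
    have hd0 : (d : ℕ) ≠ 0 := by omega
    have h6 : (r : ℝ) = ((r : ℝ) ^ d) ^ ((d : ℝ)⁻¹) :=
      (Real.pow_rpow_inv_natCast (Nat.cast_nonneg r) hd0).symm
    have hdinv : (0 : ℝ) ≤ (d : ℝ)⁻¹ := by positivity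
    rw [h6, one_div]
    calc ((r : ℝ) ^ d) ^ ((d : ℝ)⁻¹) ≤ (5 * x) ^ ((d : ℝ)⁻¹) :=
          Real.rpow_le_rpow (by positivity) hrx hdinv
      _ = 5 ^ ((d : ℝ)⁻¹) * x ^ ((d : ℝ)⁻¹) := Real.mul_rpow (by norm_num) hx0.le
      _ ≤ 5 * x ^ ((d : ℝ)⁻¹) := by
          apply mul_le_mul_of_nonneg_right _ (Real.rpow_nonneg hx0.le _)
          have h7 : (5 : ℝ) ^ ((d : ℝ)⁻¹) ≤ 5 ^ (1 : ℝ) := by
            apply Real.rpow_le_rpow_of_exponent_le (by norm_num)
            apply inv_le_one_of_one_le₀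
            have : 1 ≤ d := by omega
            exact_mod_cast this
          rwa [Real.rpow_one] at h7
  calc (X.vertices.card : ℝ) ≤ ((c0 * r : ℕ) : ℝ) := by exact_mod_cast h5
    _ = (c0 : ℝ) * r := by push_cast; ring
    _ ≤ (c0 : ℝ) * (5 * x ^ ((1 : ℝ) / d)) :=
        mul_le_mul_of_nonneg_left hr (Nat.cast_nonneg c0)
    _ = 5 * (c0 : ℝ) * x ^ ((1 : ℝ) / d) := by ring

end Q171.QA
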