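import Pool.Agent.Q171.QA.Eqn
import Pool.Agent.Q171.QA.Acyc

/-!
# From programs to presentations
-/

open Finset

namespace Q171.QA

/-- A solution of the program with doubling flags `dbl` and kill flags `kill`. -/
structure Sol (T : ℕ) (dbl kill : ℕ → Bool) {A : Type} [AddCommGroup A] (P g : ℕ → A) :
    Prop where
  hkill : ∀ t ≤ T, kill t = true → P t = 0
  step : ∀ t, 1 ≤ t → t ≤ T → P t = P (t - 1) + (if dbl t then P (t - 1) else g t)
  cont : ∀ t, 1 ≤ t → t ≤ T → kill (t - 1) = false → g t = g (t - 1)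

/-- The program presents the group `G`. -/
structure Prog (T : ℕ) (dbl kill : ℕ → Bool) (G : Type) [AddCommGroup G] (P g : ℕ → G) :
    Prop where
  k0 : kill 0 = true
  kT : kill T = true
  sol : Sol T dbl kill P g
  gen : AddSubgroup.closure {x | ∃ t, 1 ≤ t ∧ t ≤ T ∧ g t = x} = ⊤
  univ : ∀ (A : Type) [AddCommGroup A] (P' g' : ℕ → A), Sol T dbl kill P' g' →
    ∃ ψ : G →+ A, ∀ t, 1 ≤ t → t ≤ T → ψ (P t) = P' t ∧ ψ (g t) = g' t

/-- the values of the cells -/
def value {A : Type} [AddCommGroup A] (dbl : ℕ → Bool) (P g : ℕ → A) (k t : ℕ) : A :=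
  if k = 0 then P t
  else if k = 1 then P (t - 1)
  else if k = 2 then - (if dbl t then P (t - 1) else g t)
  else if k = 3 then (if dbl t then P (t - 1) else g t)
  else if k = 4 then P (t - 1)
  else if k = 5 then P (t - 1)
  else g t

variable {d T : ℕ}

namespace Layout

variable {L : Layout d T}

theorem notMem_kill {kill : ℕ → Bool} {t : ℕ} (ht : t ≤ T) (hk : kill t = true) :
    L.cell 0 d t ∉ L.B kill := by
  intro h
  obtain ⟨k, j, t', hm, heq⟩ := mem_B h
  have hd := L.hd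
  have hv : Valid d T 0 d t := ⟨by omega, by omega, le_rfl, ht, fun _ => rfl, fun h => by omega⟩
  obtain ⟨h1, _, h3⟩ := cell_inj hv (valid_of_mem hm) heq
  subst h1
  subst h3
  rw [mem_BI] at hm
  have := hm.2.2.2.2.2.2 rfl
  rw [hk] at this
  exact absurd this (by simp)

/-- all equations -/
def AllEqn (L : Layout d T) {A : Type} [AddCommGroup A] (dbl kill : ℕ → Bool)
    (c : Finset ℕ → A) : Prop :=
  ∀ k j t, (k, j, t) ∈ FI d T kill → L.eqn dbl c k j t

theorem allEqn_iff {A : Type} [AddCommGroup A] {c : Finset ℕ → A} {kill : ℕ → Bool}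
    (hc : ∀ s, s ∉ L.B kill → c s = 0) (dbl : ℕ → Bool) :
    (∀ s ∈ L.F dbl kill, rel c s = 0) ↔ L.AllEqn dbl kill c := by
  constructor
  · intro h k j t hm
    have hm' := mem_FI.mp hm
    rw [← rel_iff hc dbl hm'.2.1 hm'.2.2.1 hm'.2.2.2.1]
    apply h
    unfold F
    exact Finset.mem_image.mpr ⟨(k, j, t), hm, rfl⟩
  · intro h s hs
    unfold F at hs
    rw [Finset.mem_image] at hs
    obtain ⟨⟨k, j, t⟩, hm, rfl⟩ := hs
    have hm' := mem_FI.mp hm
    exact (rel_iff hc dbl hm'.2.1 hm'.2.2.1 hm'.2.2.2.1).mpr (h k j t hm)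

theorem fi_mem {kill : ℕ → Bool} (L : Layout d T) {k t : ℕ} (hk : k < 7) (hk0 : k ≠ 0)
    (ht : 1 ≤ t) (htT : t ≤ T) : (k, d, t) ∈ FI d T kill := by
  have hd := L.hd
  rw [mem_FI]
  exact ⟨hk, by omega, le_rfl, ht, htT, fun _ => rfl, fun h => absurd h hk0⟩

theorem fi_mem' {kill : ℕ → Bool} {k j t : ℕ} (hk : k < 7) (hk5 : 5 ≤ k) (hj : 1 ≤ j)
    (hjd : j ≤ d) (ht : 1 ≤ t) (htT : t ≤ T) : (k, j, t) ∈ FI d T kill := by
  rw [mem_FI]
  exact ⟨hk, hj, hjd, ht, htT, fun h => by omega, fun h => by omega⟩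

section Solve

variable {A : Type} [AddCommGroup A] {c : Finset ℕ → A} {dbl kill : ℕ → Bool}

theorem s5 (h : L.AllEqn dbl kill c) {t : ℕ} (ht : 1 ≤ t) (htT : t ≤ T) :
    ∀ j, 1 ≤ j → j ≤ d → c (L.cell 5 j t) = c (L.cell 0 d (t - 1)) := by
  intro j hj
  induction j, hj using Nat.le_induction with
  | base =>
    intro hjd
    have := h 5 1 t (fi_mem' (by omega) le_rfl le_rfl hjd ht htT)
    simp only [eqn] at this
    exact this.symm
  | succ j hj ih =>
    intro hjd
    have h1 := h 5 (j + 1) t (fi_mem' (by omega) le_rfl (by omega) hjd ht htT)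
    simp only [eqn] at h1
    have h2 : ¬ (j + 1 = 1) := by omega
    simp only [if_neg h2] at h1
    rw [← ih (by omega)]
    exact h1.symm

theorem s6 (h : L.AllEqn dbl kill c) {t : ℕ} (ht : 1 ≤ t) (htT : t ≤ T) :
    ∀ j, 1 ≤ j → j ≤ d → c (L.cell 6 j t) = c (L.cell 6 1 t) := by
  intro j hj
  induction j, hj using Nat.le_induction with
  | base => intro _; rfl
  | succ j hj ih =>
    intro hjd
    have h1 := h 6 (j + 1) t (fi_mem' (by omega) (by omega) (by omega) hjd ht htT)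
    simp only [eqn] at h1
    have h2 : ¬ (j + 1 = 1) := by omega
    simp only [if_neg h2] at h1
    rw [← ih (by omega)]
    exact h1.symm

theorem s6' (h : L.AllEqn dbl kill c) {t : ℕ} (ht : 1 ≤ t) (htT : t ≤ T) {j : ℕ} (hj : 1 ≤ j)
    (hjd : j ≤ d) : c (L.cell 6 j t) = c (L.cell 6 d t) := by
  rw [s6 h ht htT j hj hjd, s6 h ht htT d (by omega) le_rfl]

theorem s4 (h : L.AllEqn dbl kill c) {t : ℕ} (ht : 1 ≤ t) (htT : t ≤ T) :
    c (L.cell 4 d t) = c (L.cell 0 d (t - 1)) := by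
  have hd := L.hd
  have h1 := h 4 d t (L.fi_mem (by omega) (by omega) ht htT)
  simp only [eqn] at h1
  rw [← s5 h ht htT d (by omega) le_rfl]
  exact h1.symm

theorem s3 (h : L.AllEqn dbl kill c) {t : ℕ} (ht : 1 ≤ t) (htT : t ≤ T) :
    c (L.cell 3 d t) = if dbl t then c (L.cell 0 d (t - 1)) else c (L.cell 6 d t) := by
  have hd := L.hd
  have h1 := h 6 1 t (fi_mem' (by omega) (by omega) le_rfl (by omega) ht htT)
  simp only [eqn] at h1
  by_cases hdb : dbl t = true
  · rw [if_pos hdb]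
    simp only [hdb] at h1
    rw [← s4 h ht htT]
    exact h1
  · rw [if_neg hdb]
    simp only [hdb] at h1
    exact h1

theorem s1 (h : L.AllEqn dbl kill c) {t : ℕ} (ht : 1 ≤ t) (htT : t ≤ T) :
    c (L.cell 1 d t) = c (L.cell 0 d (t - 1)) := by
  have hd := L.hd
  have h1 := h 2 d t (L.fi_mem (by omega) (by omega) ht htT)
  simp only [eqn] at h1
  rw [← s5 h ht htT d (by omega) le_rfl]
  exact h1.symm

theorem s2 (h : L.AllEqn dbl kill c) {t : ℕ} (ht : 1 ≤ t) (htT : t ≤ T) :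
    c (L.cell 2 d t) = - c (L.cell 3 d t) := by
  have h1 := h 3 d t (L.fi_mem (by omega) (by omega) ht htT)
  simp only [eqn] at h1
  exact (neg_eq_of_add_eq_zero_right h1).symm

theorem s_step (h : L.AllEqn dbl kill c) {t : ℕ} (ht : 1 ≤ t) (htT : t ≤ T) :
    c (L.cell 0 d t) = c (L.cell 0 d (t - 1)) + c (L.cell 3 d t) := by
  have h1 := h 1 d t (L.fi_mem (by omega) (by omega) ht htT)
  simp only [eqn] at h1
  have h2 := s2 h ht htT
  have h3 := s1 h ht htT
  simp only [h2, h3] at h1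
  have h4 : c (L.cell 0 d t) - c (L.cell 0 d (t - 1)) + -c (L.cell 3 d t) = 0 := h1
  have h5 : c (L.cell 0 d t) - (c (L.cell 0 d (t - 1)) + c (L.cell 3 d t)) = 0 := by
    rw [← h4]; abel
  exact sub_eq_zero.mp h5

theorem s_cont (h : L.AllEqn dbl kill c) {t : ℕ} (ht : 1 ≤ t) (htT : t ≤ T)
    (hk : kill (t - 1) = false) : c (L.cell 6 d t) = c (L.cell 6 d (t - 1)) := by
  have hd := L.hd
  have hm : (0, d, t) ∈ FI d T kill := by
    rw [mem_FI]
    exact ⟨by omega, by omega, le_rfl, ht, htT, fun _ => rfl, fun _ => hk⟩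
  have h1 := h 0 d t hm
  simp only [eqn] at h1
  rw [s6 h ht htT d (by omega) le_rfl]
  exact h1.symm

theorem solve_value (h : L.AllEqn dbl kill c) {k j t : ℕ} (hm : (k, j, t) ∈ BI d T kill) :
    c (L.cell k j t) =
      value dbl (fun t => c (L.cell 0 d t)) (fun t => c (L.cell 6 d t)) k t := by
  have hd := L.hd
  rw [mem_BI] at hm
  obtain ⟨h7, hj1, hjd, ht, htT, hkj, _⟩ := hm
  unfold value
  by_cases hk0 : k = 0
  · rw [if_pos hk0, hk0, hkj (by omega)]
  rw [if_neg hk0]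
  by_cases hk1 : k = 1
  · rw [if_pos hk1, hk1, hkj (by omega)]; exact s1 h ht htT
  rw [if_neg hk1]
  by_cases hk2 : k = 2
  · rw [if_pos hk2, hk2, hkj (by omega), s2 h ht htT, s3 h ht htT]
  rw [if_neg hk2]
  by_cases hk3 : k = 3
  · rw [if_pos hk3, hk3, hkj (by omega)]; exact s3 h ht htT
  rw [if_neg hk3]
  by_cases hk4 : k = 4
  · rw [if_pos hk4, hk4, hkj (by omega)]; exact s4 h ht htT
  rw [if_neg hk4]
  by_cases hk5 : k = 5
  · rw [if_pos hk5, hk5]; exact s5 h ht htT j hj1 hjd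
  rw [if_neg hk5]
  have hk6 : k = 6 := by omega
  rw [hk6]
  exact s6' h ht htT hj1 hjd

theorem solve_sol (hc : ∀ s, s ∉ L.B kill → c s = 0) (h : L.AllEqn dbl kill c) :
    Sol T dbl kill (fun t => c (L.cell 0 d t)) (fun t => c (L.cell 6 d t)) where
  hkill t ht hk := hc _ (notMem_kill ht hk)
  step t ht htT := by
    show c (L.cell 0 d t) = c (L.cell 0 d (t - 1)) + _
    rw [s_step h ht htT, s3 h ht htT]
  cont t ht htT hk := s_cont h ht htT hk

end Solve

section Val

variable {G : Type} [AddCommGroup G]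

/-- the value function on finsets -/
def val (L : Layout d T) (dbl kill : ℕ → Bool) (P g : ℕ → G) (s : Finset ℕ) : G :=
  ∑ p ∈ (BI d T kill).filter (fun p => L.cell p.1 p.2.1 p.2.2 = s), value dbl P g p.1 p.2.2

theorem val_zero {dbl kill : ℕ → Bool} {P g : ℕ → G} {s : Finset ℕ} (hs : s ∉ L.B kill) :
    L.val dbl kill P g s = 0 := by
  unfold val
  apply Finset.sum_eq_zero
  intro p hp
  rw [Finset.mem_filter] at hp
  exact absurd (hp.2 ▸ Finset.mem_image.mpr ⟨p, hp.1, rfl⟩) hs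

theorem val_cell {dbl kill : ℕ → Bool} {P g : ℕ → G} {k j t : ℕ}
    (hm : (k, j, t) ∈ BI d T kill) :
    L.val dbl kill P g (L.cell k j t) = value dbl P g k t := by
  unfold val
  rw [Finset.sum_eq_single_of_mem (k, j, t)]
  · rw [Finset.mem_filter]; exact ⟨hm, rfl⟩
  · rintro ⟨k', j', t'⟩ hp hne
    rw [Finset.mem_filter] at hp
    obtain ⟨h1, h2, h3⟩ := cell_inj (valid_of_mem hp.1) (valid_of_mem hm) hp.2
    exact absurd (by rw [h1, h2, h3]) hne

theorem val_P {dbl kill : ℕ → Bool} {P g : ℕ → G} (hp : Sol T dbl kill P g) 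
    (h0 : kill 0 = true) {t : ℕ}
    (htT : t ≤ T) : L.val dbl kill P g (L.cell 0 d t) = P t := by
  have hd := L.hd
  by_cases hk : kill t = true
  · rw [val_zero (notMem_kill htT hk), hp.hkill t htT hk]
  · have ht0 : t ≠ 0 := by
      rintro rfl
      exact hk h0
    rw [val_cell]
    · rfl
    · rw [mem_BI]
      exact ⟨by omega, by omega, le_rfl, by omega, htT, fun _ => rfl,
        fun _ => by simpa using hk⟩

theorem bi_mem {kill : ℕ → Bool} (L : Layout d T) {k t : ℕ} (hk : k < 7) (hk0 : k ≠ 0)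
    (ht : 1 ≤ t) (htT : t ≤ T) : (k, d, t) ∈ BI d T kill := by
  have hd := L.hd
  rw [mem_BI]
  exact ⟨hk, by omega, le_rfl, ht, htT, fun _ => rfl, fun h => absurd h hk0⟩

theorem bi_mem' {kill : ℕ → Bool} {k j t : ℕ} (hk : k < 7) (hk5 : 5 ≤ k) (hj : 1 ≤ j)
    (hjd : j ≤ d) (ht : 1 ≤ t) (htT : t ≤ T) : (k, j, t) ∈ BI d T kill := by
  rw [mem_BI]
  exact ⟨hk, hj, hjd, ht, htT, fun h => by omega, fun h => by omega⟩

theorem val_allEqn {dbl kill : ℕ → Bool} {P g : ℕ → G} (hp : Sol T dbl kill P g)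
    (h0 : kill 0 = true) : L.AllEqn dbl kill (L.val dbl kill P g) := by
  intro k j t hm
  have hd := L.hd
  rw [mem_FI] at hm
  obtain ⟨h7, hj1, hjd, ht, htT, hkj, hk0'⟩ := hm
  have e1 : L.val dbl kill P g (L.cell 1 d t) = P (t - 1) :=
    val_cell (L.bi_mem (by omega) (by omega) ht htT)
  have e2 : L.val dbl kill P g (L.cell 2 d t) = - (if dbl t then P (t - 1) else g t) :=
    val_cell (L.bi_mem (by omega) (by omega) ht htT)
  have e3 : L.val dbl kill P g (L.cell 3 d t) = (if dbl t then P (t - 1) else g t) :=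
    val_cell (L.bi_mem (by omega) (by omega) ht htT)
  have e4 : L.val dbl kill P g (L.cell 4 d t) = P (t - 1) :=
    val_cell (L.bi_mem (by omega) (by omega) ht htT)
  have e5 : ∀ j, 1 ≤ j → j ≤ d → L.val dbl kill P g (L.cell 5 j t) = P (t - 1) :=
    fun j h1 h2 => val_cell (bi_mem' (by omega) le_rfl h1 h2 ht htT)
  have e6 : ∀ j, 1 ≤ j → j ≤ d → L.val dbl kill P g (L.cell 6 j t) = g t :=
    fun j h1 h2 => val_cell (bi_mem' (by omega) (by omega) h1 h2 ht htT)
  have e0 : L.val dbl kill P g (L.cell 0 d t) = P t := val_P hp h0 htT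
  have e0' : L.val dbl kill P g (L.cell 0 d (t - 1)) = P (t - 1) := val_P hp h0 (by omega)
  unfold eqn
  by_cases hk0 : k = 0
  · rw [if_pos hk0, e6 1 le_rfl (by omega)]
    have hkf := hk0' hk0
    have ht1 : t - 1 ≠ 0 := by
      intro h
      rw [h, h0] at hkf
      exact absurd hkf (by simp)
    have e7 : L.val dbl kill P g (L.cell 6 d (t - 1)) = g (t - 1) :=
      val_cell (bi_mem' (by omega) (by omega) (by omega) le_rfl (by omega) (by omega))
    rw [e7, hp.cont t ht htT hkf]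
  rw [if_neg hk0]
  by_cases hk1 : k = 1
  · rw [if_pos hk1, e0, e1, e2, hp.step t ht htT]; abel
  rw [if_neg hk1]
  by_cases hk2 : k = 2
  · rw [if_pos hk2, e5 d (by omega) le_rfl, e1]
  rw [if_neg hk2]
  by_cases hk3 : k = 3
  · rw [if_pos hk3, e3, e2]; abel
  rw [if_neg hk3]
  by_cases hk4 : k = 4
  · rw [if_pos hk4, e5 d (by omega) le_rfl, e4]
  rw [if_neg hk4]
  by_cases hk5 : k = 5
  · rw [if_pos hk5]
    by_cases hj : j = 1
    · rw [if_pos hj, e0', e5 1 le_rfl (by omega)]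
    · rw [if_neg hj, e5 (j - 1) (by omega) (by omega), e5 j hj1 hjd]
  rw [if_neg hk5]
  by_cases hj : j = 1
  · rw [if_pos hj]
    by_cases hdb : dbl t = true
    · rw [if_pos hdb, e3, e4, if_pos hdb]
    · rw [if_neg hdb, e3, e6 d (by omega) le_rfl, if_neg hdb]
  · rw [if_neg hj, e6 (j - 1) (by omega) (by omega), e6 j hj1 hjd]

theorem pres (L : Layout d T) {dbl kill : ℕ → Bool} {P g : ℕ → G}
    (hp : Prog T dbl kill G P g) :
    Pres (L.B kill) (L.F dbl kill) G (L.val dbl kill P g) where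
  zero t ht := val_zero ht
  rels := (allEqn_iff (fun s hs => val_zero hs) dbl).mpr (val_allEqn hp.sol hp.k0)
  gen := by
    rw [← top_le_iff, ← hp.gen, AddSubgroup.closure_le]
    rintro x ⟨t, ht, htT, rfl⟩
    apply AddSubgroup.subset_closure
    exact ⟨L.cell 6 d t, val_cell (L.bi_mem (by omega) (by omega) ht htT)⟩
  univ := by
    intro A _ c hc hrel
    have h := (allEqn_iff hc dbl).mp hrel
    have hs := solve_sol hc h
    obtain ⟨ψ, hψ⟩ := hp.univ A _ _ hs
    refine ⟨ψ, ?_⟩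
    intro s
    by_cases hsB : s ∈ L.B kill
    · obtain ⟨k, j, t, hm, rfl⟩ := mem_B hsB
      rw [val_cell hm, solve_value h hm]
      rw [mem_BI] at hm
      obtain ⟨h7, hj1, hjd, ht, htT, _, _⟩ := hm
      have hPt := (hψ t ht htT).1
      have hgt := (hψ t ht htT).2
      have hPt' : ψ (P (t - 1)) = c (L.cell 0 d (t - 1)) := by
        by_cases ht1 : t = 1
        · have h1 := hp.sol.hkill 0 (by omega) hp.k0
          have h2 := hs.hkill 0 (by omega) hp.k0
          subst ht1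
          show ψ (P 0) = c (L.cell 0 d 0)
          rw [h1, map_zero]
          exact h2.symm
        · exact (hψ (t - 1) (by omega) (by omega)).1
      unfold value
      split_ifs
      · exact hPt
      · exact hPt'
      · rw [map_neg, hPt']
      · rw [map_neg, hgt]
      · exact hPt'
      · exact hgt
      · exact hPt'
      · exact hPt'
      · exact hgt
    · rw [val_zero hsB, hc s hsB, map_zero]

end Val

/-- The complex attached to a layout and a program. -/
theorem realise (L : Layout d T) (hT : 1 ≤ T) {dbl kill : ℕ → Bool} {G : Type} [AddCommGroup G]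
    [Finite G] {P g : ℕ → G} (hp : Prog T dbl kill G P g) :
    ∃ X : SComplex, X.HasDim d ∧ X.QAcyclic ∧ Nonempty (X.H ℤ (d - 1) ≃+ G) ∧
      X.vertices.card ≤ 1 + (d + 1) * L.K := by
  have hok := L.ok dbl kill
  have hd := L.hd
  refine ⟨cx hok, ?_, ?_, ?_, ?_⟩
  · apply hasDim
    refine ⟨L.sim dbl 1 d 1, ?_⟩
    unfold F
    exact Finset.mem_image.mpr ⟨(1, d, 1), L.fi_mem (by omega) (by omega) le_rfl hT, rfl⟩
  · exact qacyclic hok (L.pres hp) (L.card_F_le dbl hp.k0)
  · obtain ⟨e, rfl⟩ : ∃ e, d = e + 2 := ⟨d - 2, by omega⟩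
    exact homology_iso hok (L.pres hp)
  · exact vertices_card hok

end Layout

end Q171.QA
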