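import Pool.Agent.Q171.QA.Cx

/-!
# Simplices with at most one (or two) vertices in each class
-/

open Finset

namespace Q171.QA

/-- the vertex with label `l` in class `i` -/
def vx (K i l : ℕ) : ℕ := 1 + i * K + l

theorem vx_pos (K i l : ℕ) : 0 < vx K i l := by unfold vx; omega

theorem vx_lt {K i j l l' : ℕ} (h : i < j) (hl : l < K) : vx K i l < vx K j l' := by
  unfold vx
  have h1 : (i + 1) * K ≤ j * K := Nat.mul_le_mul_right K h
  have h2 : (i + 1) * K = i * K + K := by ring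
  omega

theorem vx_inj {K i j l l' : ℕ} (hl : l < K) (hl' : l' < K) (h : vx K i l = vx K j l') :
    i = j ∧ l = l' := by
  rcases lt_trichotomy i j with h1 | h1 | h1
  · have := vx_lt (l' := l') h1 hl; omega
  · subst h1
    refine ⟨rfl, ?_⟩
    unfold vx at h
    omega
  · have := vx_lt (l' := l) h1 hl'; omega

/-- the simplex with one vertex, labelled `f i`, in each class `i ∈ S` -/
def mks (K : ℕ) (S : Finset ℕ) (f : ℕ → ℕ) : Finset ℕ := S.image (fun i => vx K i (f i))

theorem mem_mk {K : ℕ} {S : Finset ℕ} {f : ℕ → ℕ} {x : ℕ} :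
    x ∈ mks K S f ↔ ∃ i ∈ S, vx K i (f i) = x := by
  unfold mks
  rw [Finset.mem_image]

theorem zero_notMem_mk {K : ℕ} {S : Finset ℕ} {f : ℕ → ℕ} : 0 ∉ mks K S f := by
  intro h
  obtain ⟨i, _, h⟩ := mem_mk.mp h
  have := vx_pos K i (f i)
  omega

theorem vx_mem_mk {K : ℕ} {S : Finset ℕ} {f : ℕ → ℕ} (hf : ∀ i ∈ S, f i < K) {i l : ℕ}
    (hl : l < K) : vx K i l ∈ mks K S f ↔ i ∈ S ∧ l = f i := by
  rw [mem_mk]
  constructor
  · rintro ⟨j, hj, h⟩
    obtain ⟨h1, h2⟩ := vx_inj (hf j hj) hl h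
    subst h1
    exact ⟨hj, h2.symm⟩
  · rintro ⟨h1, rfl⟩
    exact ⟨i, h1, rfl⟩

theorem mk_congr {K : ℕ} {S : Finset ℕ} {f g : ℕ → ℕ} (h : ∀ i ∈ S, f i = g i) :
    mks K S f = mks K S g := by
  unfold mks
  apply Finset.image_congr
  intro i hi
  simp only
  rw [h i hi]

theorem mk_inj {K : ℕ} {S S' : Finset ℕ} {f g : ℕ → ℕ} (hf : ∀ i ∈ S, f i < K)
    (hg : ∀ i ∈ S', g i < K) (h : mks K S f = mks K S' g) : S = S' ∧ ∀ i ∈ S, f i = g i := by
  have h1 : ∀ i ∈ S, i ∈ S' ∧ f i = g i := by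
    intro i hi
    have : vx K i (f i) ∈ mks K S' g := h ▸ (mem_mk.mpr ⟨i, hi, rfl⟩)
    exact (vx_mem_mk hg (hf i hi)).mp this
  have h2 : ∀ i ∈ S', i ∈ S := by
    intro i hi
    have : vx K i (g i) ∈ mks K S f := h ▸ (mem_mk.mpr ⟨i, hi, rfl⟩)
    exact ((vx_mem_mk hf (hg i hi)).mp this).1
  refine ⟨?_, fun i hi => (h1 i hi).2⟩
  ext i
  exact ⟨fun hi => (h1 i hi).1, h2 i⟩

theorem injOn_vx {K : ℕ} {S : Finset ℕ} {f : ℕ → ℕ} (hf : ∀ i ∈ S, f i < K) :
    Set.InjOn (fun i => vx K i (f i)) (S : Set ℕ) := by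
  intro i hi j hj h
  exact (vx_inj (hf i hi) (hf j hj) h).1

theorem mk_card {K : ℕ} {S : Finset ℕ} {f : ℕ → ℕ} (hf : ∀ i ∈ S, f i < K) :
    (mks K S f).card = S.card := Finset.card_image_of_injOn (injOn_vx hf)

theorem mk_erase {K : ℕ} {S : Finset ℕ} {f : ℕ → ℕ} (hf : ∀ i ∈ S, f i < K) {i : ℕ}
    (hi : i ∈ S) : (mks K S f).erase (vx K i (f i)) = mks K (S.erase i) f := by
  ext x
  rw [Finset.mem_erase, mem_mk, mem_mk]
  constructor
  · rintro ⟨h1, j, hj, h2⟩
    refine ⟨j, Finset.mem_erase.mpr ⟨?_, hj⟩, h2⟩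
    rintro rfl
    exact h1 h2.symm
  · rintro ⟨j, hj, h2⟩
    rw [Finset.mem_erase] at hj
    refine ⟨?_, j, hj.2, h2⟩
    intro h3
    apply hj.1
    exact (vx_inj (hf j hj.2) (hf i hi) (h2.trans h3)).1

theorem mk_subset {K d : ℕ} {S : Finset ℕ} {f : ℕ → ℕ} (hS : ∀ i ∈ S, i ≤ d)
    (hf : ∀ i ∈ S, f i < K) : mks K S f ⊆ Finset.range (1 + (d + 1) * K) := by
  intro x hx
  obtain ⟨i, hi, rfl⟩ := mem_mk.mp hx
  rw [Finset.mem_range]
  unfold vx
  have h1 := hf i hi
  have h2 : (i + 1) * K ≤ (d + 1) * K := Nat.mul_le_mul_right K (by have := hS i hi; omega)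
  have h3 : (i + 1) * K = i * K + K := by ring
  omega

theorem sgn_insert_of_lt {v w : ℕ} {s : Finset ℕ} (hv : v ∉ s) (h : v < w) :
    sgn w (insert v s) = - sgn w s := by
  have := sgn_erase_of_lt (Finset.mem_insert_self v s) h
  rwa [Finset.erase_insert hv] at this

theorem sgn_insert_of_le {v w : ℕ} {s : Finset ℕ} (h : w ≤ v) :
    sgn w (insert v s) = sgn w s := by
  unfold sgn
  have : (insert v s).filter (· < w) = s.filter (· < w) := by
    ext x
    simp only [Finset.mem_filter, Finset.mem_insert]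
    constructor
    · rintro ⟨h1 | h1, h2⟩
      · omega
      · exact ⟨h1, h2⟩
    · rintro ⟨h1, h2⟩
      exact ⟨Or.inr h1, h2⟩
  rw [this]

theorem mk_eq_insert {K : ℕ} {S : Finset ℕ} {f : ℕ → ℕ} {j : ℕ} (hj : j ∈ S) :
    mks K S f = insert (vx K j (f j)) (mks K (S.erase j) f) := by
  ext x
  rw [Finset.mem_insert, mem_mk, mem_mk]
  constructor
  · rintro ⟨i, hi, h⟩
    by_cases hij : i = j
    · left; rw [← h, hij]
    · right; exact ⟨i, Finset.mem_erase.mpr ⟨hij, hi⟩, h⟩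
  · rintro (h | ⟨i, hi, h⟩)
    · exact ⟨j, hj, h.symm⟩
    · exact ⟨i, Finset.mem_of_mem_erase hi, h⟩

/-- two labelings of `S` that differ exactly in the class `j` -/
structure Adj (K : ℕ) (S : Finset ℕ) (f g : ℕ → ℕ) (j : ℕ) : Prop where
  hf : ∀ i ∈ S, f i < K
  hg : ∀ i ∈ S, g i < K
  hj : j ∈ S
  ne : f j ≠ g j
  eq : ∀ i ∈ S, i ≠ j → f i = g i

theorem Adj.union_eq {K : ℕ} {S : Finset ℕ} {f g : ℕ → ℕ} {j : ℕ} (h : Adj K S f g j) :
    mks K S f ∪ mks K S g = insert (vx K j (f j)) (insert (vx K j (g j)) (mks K (S.erase j) f)) := by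
  have h1 : mks K (S.erase j) g = mks K (S.erase j) f := by
    apply mk_congr
    intro i hi
    exact (h.eq i (Finset.mem_of_mem_erase hi) (Finset.ne_of_mem_erase hi)).symm
  rw [mk_eq_insert (f := f) h.hj, mk_eq_insert (f := g) h.hj, h1]
  ext x
  simp only [Finset.mem_union, Finset.mem_insert]
  tauto

theorem Adj.notMem_f {K : ℕ} {S : Finset ℕ} {f g : ℕ → ℕ} {j : ℕ} (h : Adj K S f g j) {l : ℕ}
    (hl : l < K) : vx K j l ∉ mks K (S.erase j) f := by
  intro h1
  rw [vx_mem_mk (fun i hi => h.hf i (Finset.mem_of_mem_erase hi)) hl] at h1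
  exact Finset.notMem_erase j S h1.1

theorem Adj.ne_vx {K : ℕ} {S : Finset ℕ} {f g : ℕ → ℕ} {j : ℕ} (h : Adj K S f g j) :
    vx K j (f j) ≠ vx K j (g j) := fun h1 => h.ne (vx_inj (h.hf j h.hj) (h.hg j h.hj) h1).2

theorem Adj.card {K : ℕ} {S : Finset ℕ} {f g : ℕ → ℕ} {j : ℕ} (h : Adj K S f g j) :
    (mks K S f ∪ mks K S g).card = S.card + 1 := by
  rw [h.union_eq, Finset.card_insert_of_notMem, Finset.card_insert_of_notMem,
    mk_card (fun i hi => h.hf i (Finset.mem_of_mem_erase hi)), Finset.card_erase_add_one h.hj]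
  · exact h.notMem_f (h.hg j h.hj)
  · rw [Finset.mem_insert]
    rintro (h1 | h1)
    · exact h.ne_vx h1
    · exact h.notMem_f (h.hf j h.hj) h1

theorem sgn_vx_congr {K : ℕ} {S : Finset ℕ} {f : ℕ → ℕ} {j l l' : ℕ}
    (hf : ∀ i ∈ S, f i < K) (hj : j ∉ S) (hl : l < K) (hl' : l' < K) :
    sgn (vx K j l) (mks K S f) = sgn (vx K j l') (mks K S f) := by
  unfold sgn
  congr 2
  ext x
  simp only [Finset.mem_filter]
  constructor
  · rintro ⟨h1, h2⟩
    refine ⟨h1, ?_⟩
    obtain ⟨i, hi, rfl⟩ := mem_mk.mp h1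
    rcases lt_trichotomy i j with h3 | h3 | h3
    · exact vx_lt h3 (hf i hi)
    · exact absurd (h3 ▸ hi) hj
    · have := vx_lt (l' := f i) h3 hl; omega
  · rintro ⟨h1, h2⟩
    refine ⟨h1, ?_⟩
    obtain ⟨i, hi, rfl⟩ := mem_mk.mp h1
    rcases lt_trichotomy i j with h3 | h3 | h3
    · exact vx_lt h3 (hf i hi)
    · exact absurd (h3 ▸ hi) hj
    · have := vx_lt (l' := f i) h3 hl'; omega

theorem sgn_adj {v w : ℕ} {s : Finset ℕ} (hv : v ∉ s) (hw : w ∉ s) (hvw : v ≠ w)
    (h : sgn v s = sgn w s) :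
    sgn v (insert v (insert w s)) = - sgn w (insert v (insert w s)) := by
  rw [sgn_insert_of_le le_rfl]
  have hcomm : insert v (insert w s) = insert w (insert v s) := Finset.insert_comm v w s
  have h2 : sgn w (insert v (insert w s)) = sgn w (insert v s) := by
    rw [hcomm, sgn_insert_of_le le_rfl]
  rw [h2]
  rcases lt_or_gt_of_ne hvw with h3 | h3
  · rw [sgn_insert_of_le h3.le, sgn_insert_of_lt hv h3, h, neg_neg]
  · rw [sgn_insert_of_lt hw h3, sgn_insert_of_le h3.le, h]

/-- the relation of a simplex with two vertices in one class -/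
theorem rel_adj {A : Type} [AddCommGroup A] {c : Finset ℕ → A} {K : ℕ} {S : Finset ℕ}
    {f g : ℕ → ℕ} {j : ℕ} (h : Adj K S f g j)
    (hc : ∀ s, vx K j (f j) ∈ s → vx K j (g j) ∈ s → c s = 0) :
    rel c (mks K S f ∪ mks K S g) = 0 ↔ c (mks K S f) = c (mks K S g) := by
  have hu1 := h.notMem_f (h.hf j h.hj)
  have hu2 := h.notMem_f (h.hg j h.hj)
  have hne := h.ne_vx
  have hu3 : vx K j (f j) ∉ insert (vx K j (g j)) (mks K (S.erase j) f) := by
    rw [Finset.mem_insert]
    rintro (h1 | h1)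
    · exact hne h1
    · exact hu1 h1
  have hsg : sgn (vx K j (f j)) (mks K (S.erase j) f) = sgn (vx K j (g j)) (mks K (S.erase j) f) :=
    sgn_vx_congr (fun i hi => h.hf i (Finset.mem_of_mem_erase hi)) (Finset.notMem_erase j S)
      (h.hf j h.hj) (h.hg j h.hj)
  have hsgn := sgn_adj hu1 hu2 hne hsg
  have hf' : mks K S f = insert (vx K j (f j)) (mks K (S.erase j) f) := mk_eq_insert h.hj
  have hg' : mks K S g = insert (vx K j (g j)) (mks K (S.erase j) f) := by
    rw [mk_eq_insert (f := g) h.hj]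
    congr 1
    apply mk_congr
    intro i hi
    exact (h.eq i (Finset.mem_of_mem_erase hi) (Finset.ne_of_mem_erase hi)).symm
  have he1 : (insert (vx K j (f j)) (insert (vx K j (g j)) (mks K (S.erase j) f))).erase
      (vx K j (f j)) = mks K S g := by
    rw [Finset.erase_insert hu3, hg']
  have he2 : (insert (vx K j (f j)) (insert (vx K j (g j)) (mks K (S.erase j) f))).erase
      (vx K j (g j)) = mks K S f := by
    rw [Finset.insert_comm, Finset.erase_insert, hf']
    rw [Finset.mem_insert]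
    rintro (h1 | h1)
    · exact hne h1.symm
    · exact hu2 h1
  rw [h.union_eq]
  unfold rel
  rw [Finset.sum_insert hu3, Finset.sum_insert hu2, he1, he2]
  have hz : ∑ v ∈ mks K (S.erase j) f,
      sgn v (insert (vx K j (f j)) (insert (vx K j (g j)) (mks K (S.erase j) f))) •
      c ((insert (vx K j (f j)) (insert (vx K j (g j)) (mks K (S.erase j) f))).erase v) = 0 := by
    apply Finset.sum_eq_zero
    intro v hv
    rw [hc, smul_zero]
    · rw [Finset.mem_erase]
      exact ⟨fun h1 => hu1 (h1 ▸ hv), Finset.mem_insert_self _ _⟩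
    · rw [Finset.mem_erase]
      exact ⟨fun h1 => hu2 (h1 ▸ hv), Finset.mem_insert_of_mem (Finset.mem_insert_self _ _)⟩
  rw [hz, add_zero, hsgn, neg_smul]
  constructor
  · intro h1
    have h2 : sgn (vx K j (g j)) (insert (vx K j (f j)) (insert (vx K j (g j))
        (mks K (S.erase j) f))) • (c (mks K S f) - c (mks K S g)) = 0 := by
      rw [smul_sub, ← h1]; abel
    have h3 := congrArg (fun x => sgn (vx K j (g j)) (insert (vx K j (f j))
      (insert (vx K j (g j)) (mks K (S.erase j) f))) • x) h2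
    simp only [smul_zero] at h3
    rw [← mul_smul, sgn_mul_self, one_smul] at h3
    exact sub_eq_zero.mp h3
  · intro h1
    rw [h1]; abel

/-- the sign in a transversal simplex -/
theorem sgn_mk {K n : ℕ} {f : ℕ → ℕ} (hf : ∀ i ∈ Finset.range n, f i < K) {i : ℕ}
    (hi : i ∈ Finset.range n) : sgn (vx K i (f i)) (mks K (Finset.range n) f) = (-1) ^ i := by
  unfold sgn
  congr 1
  have h1 : (mks K (Finset.range n) f).filter (· < vx K i (f i)) = mks K (Finset.range i) f := by
    ext x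
    rw [Finset.mem_filter, mem_mk, mem_mk]
    constructor
    · rintro ⟨⟨j, hj, rfl⟩, h2⟩
      refine ⟨j, ?_, rfl⟩
      rw [Finset.mem_range]
      by_contra h3
      rcases Nat.lt_or_ge i j with h4 | h4
      · have := vx_lt (l' := f j) h4 (hf i hi); omega
      · have : i = j := by omega
        subst this
        omega
    · rintro ⟨j, hj, rfl⟩
      rw [Finset.mem_range] at hj hi
      exact ⟨⟨j, Finset.mem_range.mpr (by omega), rfl⟩,
        vx_lt hj (hf j (Finset.mem_range.mpr (by omega)))⟩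
  rw [h1, mk_card, Finset.card_range]
  intro j hj
  rw [Finset.mem_range] at hj hi
  exact hf j (Finset.mem_range.mpr (by omega))

/-- the relation of a transversal simplex -/
theorem rel_mk {A : Type} [AddCommGroup A] {c : Finset ℕ → A} {K d : ℕ} (hd : 2 ≤ d)
    {f : ℕ → ℕ} (hf : ∀ i ∈ Finset.range (d + 1), f i < K)
    (hc : ∀ i ∈ Finset.range (d + 1), 3 ≤ i → c (mks K ((Finset.range (d + 1)).erase i) f) = 0) :
    rel c (mks K (Finset.range (d + 1)) f) =
      c (mks K ((Finset.range (d + 1)).erase 0) f) - c (mks K ((Finset.range (d + 1)).erase 1) f)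
      + c (mks K ((Finset.range (d + 1)).erase 2) f) := by
  have h1 : rel c (mks K (Finset.range (d + 1)) f) =
      ∑ i ∈ Finset.range (d + 1), ((-1 : ℤ) ^ i) • c (mks K ((Finset.range (d + 1)).erase i) f) := by
    unfold rel
    have : mks K (Finset.range (d + 1)) f =
      (Finset.range (d + 1)).image (fun i => vx K i (f i)) := rfl
    conv_lhs => rw [show (∑ v ∈ mks K (Finset.range (d + 1)) f,
      sgn v (mks K (Finset.range (d + 1)) f) • c ((mks K (Finset.range (d + 1)) f).erase v)) =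
      ∑ v ∈ (Finset.range (d + 1)).image (fun i => vx K i (f i)),
      sgn v (mks K (Finset.range (d + 1)) f) • c ((mks K (Finset.range (d + 1)) f).erase v) from rfl]
    rw [Finset.sum_image (injOn_vx hf)]
    apply Finset.sum_congr rfl
    intro i hi
    rw [sgn_mk hf hi, mk_erase hf hi]
  rw [h1]
  have h2 : Finset.range 3 ⊆ Finset.range (d + 1) := by
    intro x hx
    rw [Finset.mem_range] at hx ⊢
    omega
  rw [← Finset.sum_subset h2]
  · rw [Finset.sum_range_succ, Finset.sum_range_succ, Finset.sum_range_succ, Finset.sum_range_zero]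
    simp
    abel
  · intro i hi hi3
    rw [Finset.mem_range] at hi3
    rw [hc i hi (by omega), smul_zero]

end Q171.QA
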