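import Pool.Agent.Q171.QA.Machine

/-!
# Existence of short programs for all finite abelian groups
-/

open Finset

namespace Q171.QA

/-- extend a number program by one step -/
theorem bin_step {T m : ℕ} {dbl : ℕ → Bool} {p : ℕ → ℕ} (b : Bool) (h0 : p 0 = 0)
    (hs : ∀ t, 1 ≤ t → t ≤ T → p t = p (t - 1) + (if dbl t then p (t - 1) else 1))
    (hT : p T = m) :
    ∃ (dbl' : ℕ → Bool) (p' : ℕ → ℕ), p' 0 = 0 ∧
      (∀ t, 1 ≤ t → t ≤ T + 1 → p' t = p' (t - 1) + (if dbl' t then p' (t - 1) else 1)) ∧
      p' (T + 1) = m + (if b then m else 1) := by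
  refine ⟨Function.update dbl (T + 1) b, Function.update p (T + 1) (m + (if b then m else 1)),
    ?_, ?_, ?_⟩
  · rw [Function.update_of_ne (by omega)]; exact h0
  · intro t ht htT
    by_cases h : t = T + 1
    · subst h
      have h1 : T + 1 - 1 ≠ T + 1 := by omega
      rw [Function.update_self, Function.update_self, Function.update_of_ne h1]
      have h2 : T + 1 - 1 = T := by omega
      rw [h2, hT]
    · have h1 : t - 1 ≠ T + 1 := by omega
      rw [Function.update_of_ne h, Function.update_of_ne h, Function.update_of_ne h1]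
      exact hs t ht (by omega)
  · rw [Function.update_self]

theorem bin_exists (m : ℕ) (hm : 1 ≤ m) : ∃ (T : ℕ) (dbl : ℕ → Bool) (p : ℕ → ℕ), 1 ≤ T ∧
    p 0 = 0 ∧ (∀ t, 1 ≤ t → t ≤ T → p t = p (t - 1) + (if dbl t then p (t - 1) else 1)) ∧
    p T = m ∧ 2 ^ T ≤ 2 * m ^ 2 := by
  induction m using Nat.strong_induction_on with
  | _ m ih =>
    by_cases h1 : m = 1
    · subst h1
      refine ⟨1, fun _ => false, fun t => t, le_rfl, rfl, ?_, rfl, by norm_num⟩
      intro t ht htT
      have : t = 1 := by omega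
      subst this
      rfl
    · rcases Nat.even_or_odd m with ⟨k, hk⟩ | ⟨k, hk⟩
      · obtain ⟨T, dbl, p, hT, h0, hs, hpT, hb⟩ := ih k (by omega) (by omega)
        obtain ⟨dbl', p', h0', hs', hpT'⟩ := bin_step true h0 hs hpT
        refine ⟨T + 1, dbl', p', by omega, h0', hs', ?_, ?_⟩
        · rw [hpT', if_pos rfl]; exact hk.symm
        · rw [pow_succ, hk]
          nlinarith
      · obtain ⟨T, dbl, p, hT, h0, hs, hpT, hb⟩ := ih k (by omega) (by omega)
        obtain ⟨dbl', p', h0', hs', hpT'⟩ := bin_step true h0 hs hpT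
        obtain ⟨dbl'', p'', h0'', hs'', hpT''⟩ := bin_step false h0' hs' hpT'
        refine ⟨T + 1 + 1, dbl'', p'', by omega, h0'', hs'', ?_, ?_⟩
        · rw [hpT'']; simp only [if_true, Bool.false_eq_true, if_false]; omega
        · rw [pow_succ, pow_succ, hk]
          nlinarith

/-- groups with short programs -/
def Good (G : Type) [AddCommGroup G] : Prop :=
  ∃ (T : ℕ) (dbl kill : ℕ → Bool) (P g : ℕ → G), Prog T dbl kill G P g ∧
    2 ^ T ≤ (Nat.card G) ^ 3

theorem good_zmod {m : ℕ} (hm : 1 < m) : Good (ZMod m) := by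
  obtain ⟨T, dbl, p, hT, h0, hs, hpT, hb⟩ := bin_exists m hm.le
  refine ⟨T, dbl, fun t => decide (t = 0 ∨ t = T), fun t => (p t : ZMod m), fun _ => 1,
    ⟨by simp, by simp, ⟨?_, ?_, ?_⟩, ?_, ?_⟩, ?_⟩
  · intro t _ hk
    rcases of_decide_eq_true hk with h | h
    · rw [h, h0]; simp
    · rw [h, hpT]; simp
  · intro t ht htT
    show (p t : ZMod m) = (p (t - 1) : ZMod m) + _
    rw [hs t ht htT]
    split_ifs <;> push_cast <;> ring
  · intros; rfl
  · rw [← top_le_iff]
    intro x _
    have h1 : (1 : ZMod m) ∈ AddSubgroup.closure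
        {x : ZMod m | ∃ t, 1 ≤ t ∧ t ≤ T ∧ (1 : ZMod m) = x} :=
      AddSubgroup.subset_closure ⟨1, le_rfl, hT, rfl⟩
    have : NeZero m := ⟨by omega⟩
    have h2 : x = (x.val) • (1 : ZMod m) := by simp
    rw [h2]
    exact AddSubgroup.nsmul_mem _ h1 _
  · intro A _ P' g' hsol
    have hg : ∀ t, 1 ≤ t → t ≤ T → g' t = g' 1 := by
      intro t ht
      induction t, ht using Nat.le_induction with
      | base => intro _; rfl
      | succ t ht ih =>
        intro htT
        rw [hsol.cont (t + 1) (by omega) htT]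
        · exact ih (by omega)
        · apply decide_eq_false
          omega
    have hP : ∀ t, t ≤ T → P' t = (p t) • g' 1 := by
      intro t
      induction t with
      | zero =>
        intro _
        rw [hsol.hkill 0 (by omega) (by simp), h0, zero_smul]
      | succ t ih =>
        intro htT
        rw [hsol.step (t + 1) (by omega) htT, hs (t + 1) (by omega) htT, hg (t + 1) (by omega) htT,
          Nat.add_sub_cancel, ih (by omega)]
        split_ifs
        · rw [add_smul]
        · rw [add_smul, one_smul]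
    have hm0 : (m : ℤ) • g' 1 = 0 := by
      have h1 := hP T le_rfl
      rw [hsol.hkill T le_rfl (by simp), hpT] at h1
      rw [natCast_zsmul]
      exact h1.symm
    refine ⟨ZMod.lift m ⟨zmultiplesHom A (g' 1), by simpa using hm0⟩, ?_⟩
    intro t ht htT
    constructor
    · rw [hP t htT]
      have h1 : ((p t : ℕ) : ZMod m) = ((p t : ℤ) : ZMod m) := by push_cast; rfl
      rw [h1, ZMod.lift_coe]
      simp
    · rw [hg t ht htT]
      have h1 : (1 : ZMod m) = ((1 : ℤ) : ZMod m) := by push_cast; rfl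
      rw [h1, ZMod.lift_coe]
      simp
  · rw [Nat.card_zmod]
    calc 2 ^ T ≤ 2 * m ^ 2 := hb
      _ ≤ m * m ^ 2 := Nat.mul_le_mul_right _ hm
      _ = m ^ 3 := by ring

theorem good_subsingleton (G : Type) [AddCommGroup G] [Subsingleton G] : Good G := by
  refine ⟨0, fun _ => true, fun _ => true, 0, 0, ⟨rfl, rfl, ⟨?_, ?_, ?_⟩, ?_, ?_⟩, ?_⟩
  · intros; exact Subsingleton.elim _ _
  · intros; exact Subsingleton.elim _ _
  · intros; exact Subsingleton.elim _ _
  · exact Subsingleton.elim _ _
  · intro A _ P' g' _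
    exact ⟨0, fun t h1 h2 => by omega⟩
  · have : Nat.card G = 1 := Nat.card_of_subsingleton (0 : G)
    rw [this]
    norm_num

theorem good_equiv {G H : Type} [AddCommGroup G] [AddCommGroup H] (e : G ≃+ H) (h : Good G) :
    Good H := by
  obtain ⟨T, dbl, kill, P, g, hp, hb⟩ := h
  refine ⟨T, dbl, kill, fun t => e (P t), fun t => e (g t), ⟨hp.k0, hp.kT, ⟨?_, ?_, ?_⟩, ?_, ?_⟩,
    ?_⟩
  · intro t ht hk
    show e (P t) = 0
    rw [hp.sol.hkill t ht hk, map_zero]
  · intro t ht htT
    show e (P t) = e (P (t - 1)) + _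
    rw [hp.sol.step t ht htT, map_add]
    congr 1
    split_ifs <;> rfl
  · intro t ht htT hk
    show e (g t) = e (g (t - 1))
    rw [hp.sol.cont t ht htT hk]
  · have h1 : (AddSubgroup.closure {x | ∃ t, 1 ≤ t ∧ t ≤ T ∧ g t = x}).map e.toAddMonoidHom = 
        AddSubgroup.closure {x | ∃ t, 1 ≤ t ∧ t ≤ T ∧ e (g t) = x} := by
      rw [AddMonoidHom.map_closure]
      congr 1
      ext x
      constructor
      · rintro ⟨_, ⟨t, h1, h2, rfl⟩, rfl⟩
        exact ⟨t, h1, h2, rfl⟩
      · rintro ⟨t, h1, h2, rfl⟩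
        exact ⟨g t, ⟨t, h1, h2, rfl⟩, rfl⟩
    rw [← h1, hp.gen]
    rw [← AddMonoidHom.range_eq_map]
    exact AddMonoidHom.range_eq_top.mpr e.surjective
  · intro A _ P' g' hsol
    obtain ⟨ψ, hψ⟩ := hp.univ A P' g' hsol
    refine ⟨ψ.comp e.symm.toAddMonoidHom, ?_⟩
    intro t ht htT
    have := hψ t ht htT
    constructor
    · show ψ (e.symm (e (P t))) = P' t
      rw [e.symm_apply_apply]; exact this.1
    · show ψ (e.symm (e (g t))) = g' t
      rw [e.symm_apply_apply]; exact this.2
  · rw [← Nat.card_congr e.toEquiv]; exact hb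

theorem good_prod {G H : Type} [AddCommGroup G] [AddCommGroup H] (hG : Good G) (hH : Good H) :
    Good (G × H) := by
  obtain ⟨T₁, dbl₁, kill₁, P₁, g₁, hp₁, hb₁⟩ := hG
  obtain ⟨T₂, dbl₂, kill₂, P₂, g₂, hp₂, hb₂⟩ := hH
  have hP1T : P₁ T₁ = 0 := hp₁.sol.hkill T₁ le_rfl hp₁.kT
  have hP20 : P₂ 0 = 0 := hp₂.sol.hkill 0 (by omega) hp₂.k0
  refine ⟨T₁ + T₂, fun t => if t ≤ T₁ then dbl₁ t else dbl₂ (t - T₁),
    fun t => if t ≤ T₁ then kill₁ t else kill₂ (t - T₁),
    fun t => if t ≤ T₁ then (P₁ t, 0) else (0, P₂ (t - T₁)),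
    fun t => if t ≤ T₁ then (g₁ t, 0) else (0, g₂ (t - T₁)),
    ⟨?_, ?_, ⟨?_, ?_, ?_⟩, ?_, ?_⟩, ?_⟩
  · simp only [Nat.zero_le, if_true]; exact hp₁.k0
  · by_cases h : T₂ = 0
    · subst h
      simp only [add_zero, le_refl, if_true]; exact hp₁.kT
    · have h1 : ¬ (T₁ + T₂ ≤ T₁) := by omega
      simp only [if_neg h1, Nat.add_sub_cancel_left]
      exact hp₂.kT
  · intro t ht hk
    by_cases h : t ≤ T₁
    · rw [if_pos h] at hk ⊢
      rw [hp₁.sol.hkill t h hk]; rfl
    · rw [if_neg h] at hk ⊢
      rw [hp₂.sol.hkill (t - T₁) (by omega) hk]; rfl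
  · intro t ht htT
    by_cases h : t ≤ T₁
    · have h1 : t - 1 ≤ T₁ := by omega
      rw [if_pos h, if_pos h1, if_pos h, if_pos h, hp₁.sol.step t ht h]
      split_ifs <;> simp
    · by_cases h2 : t = T₁ + 1
      · subst h2
        have h3 : T₁ + 1 - 1 ≤ T₁ := by omega
        rw [if_neg h, if_pos h3, if_neg h, if_neg h]
        have h4 : T₁ + 1 - 1 = T₁ := by omega
        have h5 : T₁ + 1 - T₁ = 1 := by omega
        rw [h4, h5, hP1T, hp₂.sol.step 1 le_rfl (by omega)]
        simp only [Nat.sub_self, hP20]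
        split_ifs <;> simp
      · have h3 : ¬ (t - 1 ≤ T₁) := by omega
        rw [if_neg h, if_neg h3, if_neg h, if_neg h, hp₂.sol.step (t - T₁) (by omega) (by omega)]
        have h4 : t - T₁ - 1 = t - 1 - T₁ := by omega
        rw [h4]
        split_ifs <;> simp
  · intro t ht htT hk
    by_cases h : t ≤ T₁
    · have h1 : t - 1 ≤ T₁ := by omega
      rw [if_pos h1] at hk
      rw [if_pos h, if_pos h1, hp₁.sol.cont t ht h hk]
    · by_cases h2 : t = T₁ + 1
      · exfalso
        subst h2
        have h3 : T₁ + 1 - 1 ≤ T₁ := by omega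
        have h4 : T₁ + 1 - 1 = T₁ := by omega
        rw [if_pos h3, h4, hp₁.kT] at hk
        exact absurd hk (by simp)
      · have h3 : ¬ (t - 1 ≤ T₁) := by omega
        rw [if_neg h3] at hk
        have h4 : t - T₁ - 1 = t - 1 - T₁ := by omega
        rw [if_neg h, if_neg h3, hp₂.sol.cont (t - T₁) (by omega) (by omega) (by rw [h4]; exact hk),
          h4]
  · rw [← top_le_iff]
    set C := AddSubgroup.closure {x : G × H | ∃ t, 1 ≤ t ∧ t ≤ T₁ + T₂ ∧
      (fun t => if t ≤ T₁ then ((g₁ t, 0) : G × H) else (0, g₂ (t - T₁))) t = x} with hC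
    have h1 : (⊤ : AddSubgroup G) ≤ C.comap (AddMonoidHom.inl G H) := by
      rw [← hp₁.gen, AddSubgroup.closure_le]
      rintro x ⟨t, ht, htT, rfl⟩
      apply AddSubgroup.subset_closure
      refine ⟨t, ht, by omega, ?_⟩
      simp only [if_pos htT]
      rfl
    have h2 : (⊤ : AddSubgroup H) ≤ C.comap (AddMonoidHom.inr G H) := by
      rw [← hp₂.gen, AddSubgroup.closure_le]
      rintro x ⟨t, ht, htT, rfl⟩
      apply AddSubgroup.subset_closure
      refine ⟨T₁ + t, by omega, by omega, ?_⟩
      have h3 : ¬ (T₁ + t ≤ T₁) := by omega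
      simp only [if_neg h3, Nat.add_sub_cancel_left]
      rfl
    rintro ⟨x, y⟩ _
    have h3 : ((x, y) : G × H) = AddMonoidHom.inl G H x + AddMonoidHom.inr G H y := by simp
    rw [h3]
    exact C.add_mem (h1 (AddSubgroup.mem_top x)) (h2 (AddSubgroup.mem_top y))
  · intro A _ P' g' hsol
    have hs1 : Sol T₁ dbl₁ kill₁ P' g' := by
      refine ⟨?_, ?_, ?_⟩
      · intro t ht hk
        apply hsol.hkill t (by omega)
        simp only [if_pos ht]; exact hk
      · intro t ht htT
        have := hsol.step t ht (by omega)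
        simp only [if_pos htT] at this
        exact this
      · intro t ht htT hk
        apply hsol.cont t ht (by omega)
        have h1 : t - 1 ≤ T₁ := by omega
        simp only [if_pos h1]; exact hk
    have hs2 : Sol T₂ dbl₂ kill₂ (fun s => P' (T₁ + s)) (fun s => g' (T₁ + s)) := by
      refine ⟨?_, ?_, ?_⟩
      · intro t ht hk
        by_cases h : t = 0
        · subst h
          exact hs1.hkill T₁ le_rfl hp₁.kT
        · apply hsol.hkill (T₁ + t) (by omega)
          have h1 : ¬ (T₁ + t ≤ T₁) := by omega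
          simp only [if_neg h1, Nat.add_sub_cancel_left]
          exact hk
      · intro t ht htT
        have := hsol.step (T₁ + t) (by omega) (by omega)
        have h1 : ¬ (T₁ + t ≤ T₁) := by omega
        simp only [if_neg h1, Nat.add_sub_cancel_left] at this
        have h2 : T₁ + t - 1 = T₁ + (t - 1) := by omega
        rw [h2] at this
        exact this
      · intro t ht htT hk
        have h2 : T₁ + t - 1 = T₁ + (t - 1) := by omega
        have := hsol.cont (T₁ + t) (by omega) (by omega) (by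
          rw [h2]
          by_cases h : t = 1
          · subst h
            rw [hp₂.k0] at hk
            exact absurd hk (by simp)
          · have h1 : ¬ (T₁ + (t - 1) ≤ T₁) := by omega
            simp only [if_neg h1, Nat.add_sub_cancel_left]
            exact hk)
        rw [h2] at this
        exact this
    obtain ⟨ψ₁, hψ₁⟩ := hp₁.univ A _ _ hs1
    obtain ⟨ψ₂, hψ₂⟩ := hp₂.univ A _ _ hs2
    refine ⟨ψ₁.coprod ψ₂, ?_⟩
    intro t ht htT
    by_cases h : t ≤ T₁
    · rw [if_pos h, if_pos h]
      simp only [AddMonoidHom.coprod_apply, map_zero, add_zero]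
      exact hψ₁ t ht h
    · rw [if_neg h, if_neg h]
      simp only [AddMonoidHom.coprod_apply, map_zero, zero_add]
      have := hψ₂ (t - T₁) (by omega) (by omega)
      have h1 : T₁ + (t - T₁) = t := by omega
      simp only [h1] at this
      exact this
  · rw [Nat.card_prod, pow_add, mul_pow]
    exact Nat.mul_le_mul hb₁ hb₂

theorem good_directSum (ι : Type) [Fintype ι] : ∀ (n : ι → ℕ), (∀ i, 1 < n i) →
    Good (DirectSum ι (fun i => ZMod (n i))) := by
  classical
  refine Fintype.induction_empty_option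
    (P := fun ι _ => ∀ (n : ι → ℕ), (∀ i, 1 < n i) → Good (DirectSum ι (fun i => ZMod (n i))))
    ?_ ?_ ?_ ι
  · intro α β _ e h n hn
    have h1 := h (fun a => n (e a)) (fun a => hn (e a))
    exact good_equiv (DirectSum.equivCongrLeft (β := fun i => ZMod (n i)) e.symm).symm h1
  · intro n _
    have : Subsingleton (DirectSum PEmpty (fun i => ZMod (n i))) := by
      constructor
      intro x y
      ext i
      exact i.elim
    exact good_subsingleton _
  · intro α _ h n hn
    have h1 := h (fun a => n (some a)) (fun a => hn (some a))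
    exact good_equiv (DirectSum.addEquivProdDirectSum (α := fun i => ZMod (n i))).symm
      (good_prod (good_zmod (hn none)) h1)

/-- every finite abelian group has a short program -/
theorem good_all (G : Type) [AddCommGroup G] [Finite G] : Good G := by
  obtain ⟨ι, _, n, hn, ⟨e⟩⟩ := AddCommGroup.equiv_directSum_zmod_of_finite' G
  exact good_equiv e.symm (good_directSum ι n hn)

end Q171.QA
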